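import Pool.Agent.H949R2.Main1

set_option autoImplicit false

open Finset

namespace Pool.Agent.H949R2

lemma lpr_mod (M t : ℕ) : lpr M (t % M) = lpr M t := by
  unfold lpr; rw [Nat.mod_mod]

lemma lpr_congr (M s t : ℕ) (h : s ≡ t [MOD M]) : lpr M s = lpr M t := by
  unfold lpr
  have : s % M = t % M := h
  rw [this]

lemma lpr_pos (M t : ℕ) (hM : 0 < M) : 0 < lpr M t := by
  unfold lpr; split_ifs <;> omega

lemma lpr_modEq (M t : ℕ) : lpr M t ≡ t [MOD M] := by
  unfold lpr
  split_ifs with h
  · show M % M = t % M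
    rw [h, Nat.mod_self]
  · exact Nat.mod_modEq _ _

lemma lpr_le' (M : ℕ) (hM : 0 < M) (t x : ℕ) (hx : 0 < x) (h : x ≡ t [MOD M]) : lpr M t ≤ x := by
  rw [← lpr_congr M x t h]
  unfold lpr
  split_ifs with hz
  · exact Nat.le_of_dvd hx (Nat.dvd_of_mod_eq_zero hz)
  · exact Nat.mod_le _ _

/-- checking `CycleAvg` needs only the residues `t < M` -/
lemma cycleAvg_of_lt (b M : ℕ) (hM : 0 < M) (κ : ℕ)
    (h : ∀ t < M, κ * Nat.totient M ≤ ∑ j ∈ range (Nat.totient M), lpr M (b ^ (M + j) * t)) :
    CycleAvg b M κ := by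
  intro t
  have h1 := h (t % M) (Nat.mod_lt _ hM)
  have h2 : ∑ j ∈ range (Nat.totient M), lpr M (b ^ (M + j) * (t % M)) =
      ∑ j ∈ range (Nat.totient M), lpr M (b ^ (M + j) * t) := by
    apply Finset.sum_congr rfl
    intro j _
    apply lpr_congr
    exact Nat.ModEq.mul_left _ (Nat.mod_modEq _ _)
  rw [h2] at h1
  exact_mod_cast h1

lemma cyc2 : CycleAvg 2 2 2 := by
  apply cycleAvg_of_lt 2 2 (by norm_num) 2
  decide +kernel

lemma cyc6 : CycleAvg 2 6 3 := by
  apply cycleAvg_of_lt 2 6 (by norm_num) 3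
  decide +kernel

lemma cyc24 : CycleAvg 2 24 12 := by
  apply cycleAvg_of_lt 2 24 (by norm_num) 12
  decide +kernel

lemma cyc120 : CycleAvg 2 120 30 := by
  apply cycleAvg_of_lt 2 120 (by norm_num) 30
  decide +kernel

/-- digit sum inequality for least positive residues along a cycle -/
lemma lpr_mul_sum (b M : ℕ) (hb : 2 ≤ b) (hM : 0 < M) (u : ℕ → ℕ) (hu : ∀ j, u (j + 1) = b * u j)
    (f : ℕ) (Sx : ℕ) (hS : ∀ i, ∑ j ∈ range f, lpr M (u (j + i)) = Sx) (m : ℕ) (hm : 0 < m) :
    ∀ i, ∑ j ∈ range f, lpr M (m * u (j + i)) ≤ (b - 1) * (Nat.log b m + 1) * Sx := by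
  induction m using Nat.strong_induction_on with
  | _ m ih =>
    intro i
    have hsimple : ∀ (r0 j : ℕ), lpr M (u j) * r0 ≡ r0 * u j [MOD M] := by
      intro r0 j
      rw [mul_comm r0]
      exact Nat.ModEq.mul_right _ (lpr_modEq M (u j))
    by_cases hmb : m < b
    · have h1 : ∑ j ∈ range f, lpr M (m * u (j + i)) ≤ ∑ j ∈ range f, (b - 1) * lpr M (u (j + i)) := by
        apply Finset.sum_le_sum
        intro j _
        refine le_trans (lpr_le' M hM _ (lpr M (u (j + i)) * m)
          (Nat.mul_pos (lpr_pos M _ hM) hm) (hsimple m (j + i))) ?_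
        rw [mul_comm]
        exact Nat.mul_le_mul_right _ (by omega)
      refine le_trans h1 ?_
      rw [← Finset.mul_sum, hS i, Nat.log_of_lt hmb]
      simp
    · push Not at hmb
      have hm1 : 0 < m / b := Nat.div_pos hmb (by omega)
      have hm2 : m / b < m := Nat.div_lt_self hm hb
      have h1 := ih (m / b) hm2 hm1 (i + 1)
      have h2 : ∀ j, lpr M (m * u (j + i)) ≤ lpr M ((m / b) * u (j + (i + 1))) +
          (b - 1) * lpr M (u (j + i)) := by
        intro j
        have h3 : lpr M ((m / b) * u (j + (i + 1))) + lpr M (u (j + i)) * (m % b) ≡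
            m * u (j + i) [MOD M] := by
          have h4 : m * u (j + i) = (m / b) * u (j + (i + 1)) + (m % b) * u (j + i) := by
            rw [← add_assoc, hu (j + i)]
            conv_lhs => rw [← Nat.div_add_mod m b]
            ring
          rw [h4]
          exact Nat.ModEq.add (lpr_modEq M _) (hsimple (m % b) (j + i))
        refine le_trans (lpr_le' M hM _ _ (by have := lpr_pos M ((m / b) * u (j + (i + 1))) hM; omega) h3) ?_
        apply Nat.add_le_add_left
        rw [mul_comm]
        apply Nat.mul_le_mul_right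
        have := Nat.mod_lt m (by omega : 0 < b)
        omega
      have h3 := Finset.sum_le_sum (fun j (_ : j ∈ range f) => h2 j)
      rw [Finset.sum_add_distrib, ← Finset.mul_sum, hS i] at h3
      refine le_trans h3 ?_
      have h4 : Nat.log b m = Nat.log b (m / b) + 1 := by
        rw [Nat.log_div_base]
        have : 0 < Nat.log b m := Nat.log_pos hb hmb
        omega
      rw [h4]
      calc ∑ j ∈ range f, lpr M ((m / b) * u (j + (i + 1))) + (b - 1) * Sx
          ≤ (b - 1) * (Nat.log b (m / b) + 1) * Sx + (b - 1) * Sx := Nat.add_le_add_right h1 _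
        _ = _ := by ring

/-- general lower bound for the cycle averages -/
theorem cycleAvg_general (b M U : ℕ) (hb : 2 ≤ b) (hM : 0 < M) (hU0 : 0 < U)
    (hU : ∀ q, q.Prime → q ∣ M → q ≤ U) :
    CycleAvg b M ((M : ℝ) / (U * ((b - 1) * (Nat.log b M + 1)))) := by
  intro t
  have hbR : (1 : ℝ) ≤ (b : ℝ) - 1 := by
    have : (2 : ℝ) ≤ b := by exact_mod_cast hb
    linarith
  have hUR : (1 : ℝ) ≤ U := by exact_mod_cast hU0
  have hfR : (0 : ℝ) ≤ (Nat.totient M : ℝ) := Nat.cast_nonneg _
  have hlog : (0 : ℝ) ≤ (Nat.log b M : ℝ) := Nat.cast_nonneg _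
  have hMR : (0 : ℝ) < M := by exact_mod_cast hM
  set K : ℝ := (U * (((b : ℝ) - 1) * (Nat.log b M + 1))) with hK
  have hK1 : 1 ≤ K := by
    have h1 : 1 ≤ ((b : ℝ) - 1) * (Nat.log b M + 1) := by nlinarith
    nlinarith
  set g := Nat.gcd (b ^ M * t) M with hg
  obtain ⟨d, hd⟩ : g ∣ M := Nat.gcd_dvd_right _ _
  obtain ⟨w, hw⟩ : g ∣ b ^ M * t := Nat.gcd_dvd_left _ _
  have hg0 : 0 < g := Nat.gcd_pos_of_pos_right _ hM
  have hd0 : 0 < d := by
    rcases Nat.eq_zero_or_pos d with h | h
    · rw [h] at hd; omega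
    · exact h
  rcases Nat.eq_or_lt_of_le hd0 with hd1 | hd1
  · -- all residues are M
    have hgM : g = M := by rw [hd, ← hd1]; ring
    have h1 : ∀ j ∈ range (Nat.totient M), ((M : ℝ)) ≤ (lpr M (b ^ (M + j) * t) : ℝ) := by
      intro j _
      have : b ^ (M + j) * t % M = 0 := by
        have h2 : M ∣ b ^ (M + j) * t := by
          rw [pow_add, mul_right_comm, hw, hgM]
          exact Dvd.dvd.mul_right (Dvd.intro _ rfl) _
        exact Nat.mod_eq_zero_of_dvd h2
      unfold lpr
      rw [if_pos this]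
    have h2 := Finset.sum_le_sum h1
    rw [Finset.sum_const, Finset.card_range, nsmul_eq_mul] at h2
    refine le_trans ?_ h2
    have h3 : (M : ℝ) / K ≤ M := div_le_self (Nat.cast_nonneg _) hK1
    nlinarith
  · -- a prime factor of d
    obtain ⟨p, hp, hpd⟩ := Nat.exists_prime_and_dvd (by omega : d ≠ 1)
    have hpM : p ∣ M := by rw [hd]; exact Dvd.dvd.mul_left hpd _
    have hdb : Nat.Coprime b d := by
      rw [Nat.coprime_iff_gcd_eq_one]
      by_contra hne
      obtain ⟨p', hp', hpd'⟩ := Nat.exists_prime_and_dvd hne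
      have hpb' : p' ∣ b := dvd_trans hpd' (Nat.gcd_dvd_left _ _)
      have hpd'' : p' ∣ d := dvd_trans hpd' (Nat.gcd_dvd_right _ _)
      have hv1 : p' ^ (M.factorization p') ∣ M := Nat.ordProj_dvd M p'
      have hv2 : M.factorization p' ≤ M := le_of_lt (Nat.factorization_lt p' hM.ne')
      have hv3 : p' ^ (M.factorization p') ∣ b ^ M * t := by
        refine Dvd.dvd.mul_right ?_ _
        exact dvd_trans (pow_dvd_pow_of_dvd hpb' _) (pow_dvd_pow b hv2)
      have hv4 : p' ^ (M.factorization p') ∣ g := Nat.dvd_gcd hv3 hv1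
      have hv5 : p' ^ (M.factorization p' + 1) ∣ g * d := by
        rw [pow_succ]
        exact mul_dvd_mul hv4 hpd''
      rw [← hd] at hv5
      exact Nat.pow_succ_factorization_not_dvd hM.ne' hp' hv5
    obtain ⟨m', hm'⟩ := hpd
    have hm0 : 0 < m' := by
      rcases Nat.eq_zero_or_pos m' with h | h
      · rw [h] at hm'; omega
      · exact h
    set f := Nat.totient M with hf
    have hper : ∀ j, lpr M (b ^ (M + (j + f)) * t) = lpr M (b ^ (M + j) * t) := by
      intro j
      apply lpr_congr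
      have h1 : b ^ f ≡ 1 [MOD d] := by
        obtain ⟨e, he⟩ := Nat.totient_dvd_of_dvd (show d ∣ M from ⟨g, by rw [hd]; ring⟩)
        rw [← hf] at he
        rw [he, pow_mul]
        have := (Nat.ModEq.pow_totient hdb).pow e
        simpa using this
      have h2 : g * (w * b ^ f) ≡ g * (w * 1) [MOD g * d] :=
        Nat.ModEq.mul_left' g (Nat.ModEq.mul_left w h1)
      rw [← hd] at h2
      have h3 : b ^ (M + (j + f)) * t = b ^ j * (g * (w * b ^ f)) := by
        have : b ^ (M + (j + f)) * t = b ^ j * ((b ^ M * t) * b ^ f) := by ring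
        rw [this, hw]; ring
      have h4 : b ^ (M + j) * t = b ^ j * (g * (w * 1)) := by
        have : b ^ (M + j) * t = b ^ j * (b ^ M * t) := by ring
        rw [this, hw]; ring
      rw [h3, h4]
      exact Nat.ModEq.mul_left _ h2
    let u : ℕ → ℕ := fun j => b ^ (M + j) * t
    have hu : ∀ j, u (j + 1) = b * u j := by
      intro j
      show b ^ (M + (j + 1)) * t = b * (b ^ (M + j) * t)
      ring
    have hshift : ∀ i, ∑ j ∈ range f, lpr M (u (j + i)) = ∑ j ∈ range f, lpr M (u j) := by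
      intro i
      induction i with
      | zero => simp
      | succ i ih =>
        rw [← ih]
        have h1 := Finset.sum_range_succ' (fun j => lpr M (u (j + i))) f
        have h2 := Finset.sum_range_succ (fun j => lpr M (u (j + i))) f
        have h3 : lpr M (u (f + i)) = lpr M (u (0 + i)) := by
          have := hper i
          rw [add_comm f i, zero_add]
          exact this
        have h4 : ∑ j ∈ range f, lpr M (u (j + (i + 1))) = ∑ j ∈ range f, lpr M (u (j + 1 + i)) := by
          apply Finset.sum_congr rfl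
          intro j _
          congr 2
          ring
        rw [h4]
        omega
    have hmain := lpr_mul_sum b M hb hM u hu f _ hshift m' hm0 0
    have hlow : ∀ j, g * m' ≤ lpr M (m' * u (j + 0)) := by
      intro j
      have h1 : g * m' ∣ M := by rw [hd, hm']; exact ⟨p, by ring⟩
      have h2 : g * m' ∣ m' * u (j + 0) := by
        show g * m' ∣ m' * (b ^ (M + (j + 0)) * t)
        have : m' * (b ^ (M + (j + 0)) * t) = m' * (b ^ j * (b ^ M * t)) := by ring
        rw [this, hw]
        exact ⟨b ^ j * w, by ring⟩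
      have h3 : g * m' ∣ lpr M (m' * u (j + 0)) :=
        ((lpr_modEq M (m' * u (j + 0))).dvd_iff h1).2 h2
      exact Nat.le_of_dvd (lpr_pos M _ hM) h3
    have hlow2 : f * (g * m') ≤ ∑ j ∈ range f, lpr M (m' * u (j + 0)) := by
      have := Finset.card_nsmul_le_sum (range f) (fun j => lpr M (m' * u (j + 0))) (g * m')
        (fun j _ => hlow j)
      rwa [Finset.card_range, smul_eq_mul] at this
    have hfin := le_trans hlow2 hmain
    have hfinR : (f : ℝ) * ((g : ℝ) * m') ≤ ((b : ℝ) - 1) * ((Nat.log b m' : ℝ) + 1) *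
        (∑ j ∈ range f, (lpr M (u j) : ℝ)) := by
      have h1 : ((f * (g * m') : ℕ) : ℝ) ≤ (((b - 1) * (Nat.log b m' + 1) * ∑ j ∈ range f, lpr M (u j) : ℕ) : ℝ) := by
        exact_mod_cast hfin
      rw [Nat.cast_mul, Nat.cast_mul, Nat.cast_mul, Nat.cast_mul, Nat.cast_sub (by omega),
        Nat.cast_add, Nat.cast_sum, Nat.cast_one] at h1
      exact h1
    set Sx : ℝ := ∑ j ∈ range f, (lpr M (u j) : ℝ) with hSx
    have hSx0 : 0 ≤ Sx := Finset.sum_nonneg (fun j _ => Nat.cast_nonneg _)
    have hlogm : (Nat.log b m' : ℝ) ≤ Nat.log b M := by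
      have h1 : m' ≤ M := by
        rw [hd, hm']
        calc m' = 1 * (1 * m') := by ring
          _ ≤ g * (p * m') := Nat.mul_le_mul hg0 (Nat.mul_le_mul_right _ hp.pos)
      exact_mod_cast Nat.log_mono_right h1
    have hpU : (p : ℝ) ≤ U := by exact_mod_cast hU p hp hpM
    have hMeq : (M : ℝ) = p * (g * m') := by
      have : M = p * (g * m') := by rw [hd, hm']; ring
      exact_mod_cast this
    have h5 : (f : ℝ) * M ≤ K * Sx := by
      have h6 : (p : ℝ) * ((f : ℝ) * ((g : ℝ) * m')) ≤ (U : ℝ) * (((b : ℝ) - 1) * ((Nat.log b m' : ℝ) + 1) * Sx) := by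
        apply mul_le_mul hpU hfinR (by positivity) (by positivity)
      have h7 : ((b : ℝ) - 1) * ((Nat.log b m' : ℝ) + 1) * Sx ≤ ((b : ℝ) - 1) * ((Nat.log b M : ℝ) + 1) * Sx := by
        apply mul_le_mul_of_nonneg_right _ hSx0
        apply mul_le_mul_of_nonneg_left _ (by linarith)
        linarith
      have h8 : (U : ℝ) * (((b : ℝ) - 1) * ((Nat.log b m' : ℝ) + 1) * Sx) ≤
          (U : ℝ) * (((b : ℝ) - 1) * ((Nat.log b M : ℝ) + 1) * Sx) :=
        mul_le_mul_of_nonneg_left h7 (by linarith)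
      calc (f : ℝ) * M = (p : ℝ) * ((f : ℝ) * ((g : ℝ) * m')) := by rw [hMeq]; ring
        _ ≤ _ := h6
        _ ≤ _ := h8
        _ = K * Sx := by rw [hK]; ring
    show (M : ℝ) / K * (f : ℝ) ≤ Sx
    rw [div_mul_eq_mul_div, div_le_iff₀ (by linarith)]
    linarith

end Pool.Agent.H949R2
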