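import Pool.Agent.H949R2.DigitsR
import Pool.Agent.H949R2.Cycle

set_option autoImplicit false

open Finset Filter

namespace Pool.Agent.H949R2

lemma sum_cc_eq (b : ℕ) (x : ℝ) (N : ℕ) :
    ∑ k ∈ range (N + 1), cc b x k = 1 + digitSum b x N := by
  rw [Finset.sum_range_succ']
  have h1 : ∑ k ∈ range N, cc b x (k + 1) = digitSum b x N := by
    unfold digitSum
    induction N with
    | zero => simp
    | succ N ih =>
      rw [Finset.sum_range_succ, ih, Finset.sum_Icc_succ_top (by omega)]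
      simp [cc]
  rw [h1]
  simp [cc]
  ring

lemma natDegree_ge_two (ξ : ℝ) (hξ : Irrational ξ) (P : Polynomial ℤ)
    (hP : Polynomial.aeval ξ P = 0) (h0 : P ≠ 0) : 2 ≤ P.natDegree := by
  by_contra hcon
  push Not at hcon
  have h1 : P.natDegree ≤ 1 := by omega
  obtain ⟨u, v, huv⟩ := Polynomial.exists_eq_X_add_C_of_natDegree_le_one h1
  rw [huv] at hP
  simp only [map_add, map_mul, Polynomial.aeval_C, Polynomial.aeval_X] at hP
  have h2 : (u : ℝ) * ξ + v = 0 := by simpa using hP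
  by_cases hu : u = 0
  · rw [hu] at h2
    have hv : v = 0 := by
      have : (v : ℝ) = 0 := by simpa using h2
      exact_mod_cast this
    apply h0
    rw [huv, hu, hv]
    simp
  · have hu' : (u : ℝ) ≠ 0 := by exact_mod_cast hu
    apply hξ
    refine ⟨-(v : ℚ) / u, ?_⟩
    push_cast
    field_simp
    linarith

lemma final_conv (D : ℕ) (hD : 1 ≤ D) (B ε : ℝ) (hB : 0 < B) (hε : 0 < ε) (s : ℕ → ℕ)
    (h : ∀ ε' : ℝ, 0 < ε' → ∀ᶠ N : ℕ in atTop, (1 - ε') * B * (N : ℝ) ≤ ((1 + s N : ℕ) : ℝ) ^ D) :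
    ∀ᶠ N : ℕ in atTop, (1 - ε) * B * (N : ℝ) ≤ (s N : ℝ) ^ D := by
  rcases le_or_gt 1 ε with hε1 | hε1
  · filter_upwards with N
    have h1 : (1 - ε) * B * (N : ℝ) ≤ 0 := by
      apply mul_nonpos_of_nonpos_of_nonneg _ (Nat.cast_nonneg _)
      exact mul_nonpos_of_nonpos_of_nonneg (by linarith) hB.le
    exact le_trans h1 (by positivity)
  have h1 := h (ε / 2) (by positivity)
  -- threshold for u = 1 + s N
  have hu : ∀ᶠ N : ℕ in atTop, (2 * D / ε + 1) ^ D ≤ (1 - ε / 2) * B * (N : ℝ) := by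
    have h2 : Tendsto (fun N : ℕ => (1 - ε / 2) * B * (N : ℝ)) atTop atTop :=
      tendsto_natCast_atTop_atTop.const_mul_atTop (mul_pos (by linarith) hB)
    exact h2.eventually_ge_atTop _
  filter_upwards [h1, hu] with N hN1 hN2
  have hDR : (1 : ℝ) ≤ D := by exact_mod_cast hD
  set u : ℝ := ((1 + s N : ℕ) : ℝ) with hu'
  have hus : u = 1 + (s N : ℝ) := by rw [hu']; push_cast; ring
  have hu0 : 0 < u := by rw [hus]; positivity
  have hu2 : 2 * D / ε + 1 ≤ u := by
    exact le_of_pow_le_pow_left₀ (by omega) hu0.le (le_trans hN2 hN1)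
  have hs : (s N : ℝ) = u * (1 + -(1 / u)) := by rw [hus]; field_simp; ring
  have hbern : 1 + (D : ℝ) * -(1 / u) ≤ (1 + -(1 / u)) ^ D := by
    apply one_add_mul_le_pow
    have : 1 / u ≤ 1 := by
      rw [div_le_one hu0]
      have : 0 ≤ 2 * (D : ℝ) / ε := by positivity
      linarith
    linarith
  have hDu : (D : ℝ) * (1 / u) ≤ ε / 2 := by
    rw [mul_one_div, div_le_iff₀ hu0]
    have h3 : 2 * D / ε ≤ u := by linarith
    rw [div_le_iff₀ hε] at h3
    linarith
  rw [hs, mul_pow]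
  have h4 : 1 - ε / 2 ≤ (1 + -(1 / u)) ^ D := by linarith
  have h5 : (1 - ε / 2) * B * (N : ℝ) * (1 - ε / 2) ≤ u ^ D * (1 + -(1 / u)) ^ D := by
    apply mul_le_mul hN1 h4 (by linarith) (by positivity)
  refine le_trans ?_ h5
  have h6 : 0 ≤ B * (N : ℝ) := by positivity
  nlinarith [mul_nonneg (sq_nonneg (ε / 2)) h6]

/-- the main inequality -/
theorem main_ineq (b : ℕ) (hb : 2 ≤ b) (ξ : ℝ) (hξ : Irrational ξ) (P : Polynomial ℤ)
    (hP : Polynomial.aeval ξ P = 0) (a : ℕ) (ha : 0 < a) (hlead : P.leadingCoeff = (a : ℤ))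
    (κ : ℝ) (hκ0 : 0 < κ) (hκ : CycleAvg b (a * P.natDegree.factorial) κ)
    (ε : ℝ) (hε : 0 < ε) :
    ∀ᶠ N : ℕ in atTop, (1 - ε) * (((b : ℝ) - 1) * κ / a) * (N : ℝ) ≤
      (digitSum b ξ N : ℝ) ^ P.natDegree := by
  have hP0 : P ≠ 0 := by
    intro h
    rw [h, Polynomial.leadingCoeff_zero] at hlead
    omega
  have hD := natDegree_ge_two ξ hξ P hP hP0
  set s : ℤ := 1 - ⌊ξ⌋ with hs
  set y : ℝ := ξ + s with hy
  have hfy : ⌊y⌋ = 1 := by
    rw [hy, Int.floor_add_intCast, hs]; ring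
  set P' : Polynomial ℤ := P.comp (Polynomial.X - Polynomial.C s) with hP'
  have hXn : (Polynomial.X - Polynomial.C s).natDegree = 1 := Polynomial.natDegree_X_sub_C s
  have hdeg : P'.natDegree = P.natDegree := by
    rw [hP', Polynomial.natDegree_comp, hXn, mul_one]
  have hlead' : P'.leadingCoeff = (a : ℤ) := by
    rw [hP', Polynomial.leadingCoeff_comp (by rw [hXn]; norm_num), hlead,
      Polynomial.leadingCoeff_X_sub_C, one_pow, mul_one]
  have hroot : Polynomial.aeval y P' = 0 := by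
    rw [hP', Polynomial.aeval_comp]
    have : Polynomial.aeval y (Polynomial.X - Polynomial.C s) = ξ := by
      simp only [map_sub, Polynomial.aeval_X, Polynomial.aeval_C]
      rw [hy]; simp
    rw [this, hP]
  have hP'0 : P' ≠ 0 := by
    intro h
    rw [h, Polynomial.leadingCoeff_zero] at hlead'
    omega
  have halg : IsAlgebraic ℚ y := by
    have : IsAlgebraic ℤ y := ⟨P', hP'0, hroot⟩
    exact (IsFractionRing.isAlgebraic_iff ℤ ℚ ℝ).mp this
  have hirr : Irrational y := by rw [hy]; exact hξ.add_intCast s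
  have hsum : ∑ j ∈ range (P.natDegree + 1), ((P'.coeff j : ℤ) : ℝ) * y ^ j = 0 := by
    have h1 := hroot
    rw [Polynomial.aeval_eq_sum_range, hdeg] at h1
    rw [← h1]
    apply Finset.sum_congr rfl
    intro j _
    simp
  have hADc : P'.coeff P.natDegree = ((a : ℕ) : ℤ) := by
    rw [← hlead', Polynomial.leadingCoeff, hdeg]
  have hccle : ∀ k, cc b y k ≤ b := by
    intro k
    unfold cc
    split_ifs
    · omega
    · exact (digit_lt b hb y k).le
  have hBpos : 0 < ((b : ℝ) - 1) * κ / a := by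
    have h1 : (0 : ℝ) < (b : ℝ) - 1 := by
      have : (2 : ℝ) ≤ b := by exact_mod_cast hb
      linarith
    have h2 : (0 : ℝ) < a := by exact_mod_cast ha
    positivity
  apply final_conv P.natDegree (by omega) _ ε hBpos hε (fun N => digitSum b ξ N)
  intro ε' hε'
  have hmain := main_abs b hb (cc b y) (by simp [cc]) hccle (fun j => P'.coeff j) P.natDegree hD a
    (a * P.natDegree.factorial) hADc rfl ha κ hκ0 hκ y (hasSum_cc b hb y hfy) hsum
    (fun ε hε => ridout_gap b hb y hfy halg hirr ε hε) ε' hε'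
  filter_upwards [hmain] with N hN
  rw [sum_cc_eq, hy, digitSum_add_int b hb] at hN
  exact hN

end Pool.Agent.H949R2
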