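import Mathlib

set_option autoImplicit false

open Finset

namespace Pool.Agent.H949R2

/-- `r c j k` is the coefficient of `z^k` in `(∑ c_i z^i)^j`. -/
def r (c : ℕ → ℕ) : ℕ → ℕ → ℕ
  | 0, k => if k = 0 then 1 else 0
  | (j+1), k => ∑ p ∈ antidiagonal k, c p.1 * r c j p.2

lemma r_zero (c : ℕ → ℕ) (k : ℕ) : r c 0 k = if k = 0 then 1 else 0 := by
  rw [r]

lemma r_succ (c : ℕ → ℕ) (j k : ℕ) :
    r c (j+1) k = ∑ p ∈ antidiagonal k, c p.1 * r c j p.2 := by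
  rw [r]

lemma hasSum_r (c : ℕ → ℕ) (x y : ℝ) (hx : 0 ≤ x)
    (hy : HasSum (fun k => (c k : ℝ) * x ^ k) y) (j : ℕ) :
    HasSum (fun k => (r c j k : ℝ) * x ^ k) (y ^ j) := by
  induction j with
  | zero =>
    have h := hasSum_ite_eq (0 : ℕ) (1 : ℝ)
    rw [pow_zero]
    convert h using 2 with k
    rw [r_zero]
    by_cases hk : k = 0
    · subst hk; simp
    · simp [hk]
  | succ j ih =>
    have hn1 : ∀ k, 0 ≤ (c k : ℝ) * x ^ k := fun k => by positivity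
    have hn2 : ∀ k, 0 ≤ (r c j k : ℝ) * x ^ k := fun k => by positivity
    have h1 : Summable (fun k => ‖(c k : ℝ) * x ^ k‖) := by
      simp_rw [Real.norm_of_nonneg (hn1 _)]; exact hy.summable
    have h2 : Summable (fun k => ‖(r c j k : ℝ) * x ^ k‖) := by
      simp_rw [Real.norm_of_nonneg (hn2 _)]; exact ih.summable
    have h3 := tsum_mul_tsum_eq_tsum_sum_antidiagonal_of_summable_norm h1 h2
    have h4 := (summable_norm_sum_mul_antidiagonal_of_summable_norm h1 h2).of_norm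
    have h5 : ∀ n, (∑ kl ∈ antidiagonal n, (c kl.1 : ℝ) * x ^ kl.1 * ((r c j kl.2 : ℝ) * x ^ kl.2))
        = (r c (j+1) n : ℝ) * x ^ n := by
      intro n
      rw [r_succ]
      push_cast
      rw [Finset.sum_mul]
      apply Finset.sum_congr rfl
      intro p hp
      rw [HasAntidiagonal.mem_antidiagonal] at hp
      rw [← hp, pow_add]; ring
    rw [hy.tsum_eq, ih.tsum_eq] at h3
    have h6 := h4.hasSum
    rw [← h3] at h6
    rw [pow_succ, mul_comm]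
    have h7 : (fun n => (r c (j+1) n : ℝ) * x ^ n) = (fun n => ∑ kl ∈ HasAntidiagonal.antidiagonal n,
        (c kl.1 : ℝ) * x ^ kl.1 * ((r c j kl.2 : ℝ) * x ^ kl.2)) := by
      funext n; exact (h5 n).symm
    rw [h7]
    exact h6

lemma r_le (c : ℕ → ℕ) (b : ℕ) (hc : ∀ k, c k ≤ b) (j k : ℕ) :
    r c j k ≤ (b * (k + 1)) ^ j := by
  induction j generalizing k with
  | zero => rw [r_zero]; split_ifs <;> simp
  | succ j ih =>
    rw [r_succ]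
    calc ∑ p ∈ antidiagonal k, c p.1 * r c j p.2
        ≤ ∑ p ∈ antidiagonal k, b * (b * (k + 1)) ^ j := by
          apply Finset.sum_le_sum
          intro p hp
          rw [HasAntidiagonal.mem_antidiagonal] at hp
          apply Nat.mul_le_mul (hc _)
          refine le_trans (ih p.2) ?_
          apply Nat.pow_le_pow_left
          apply Nat.mul_le_mul_left
          omega
      _ = (b * (k + 1)) ^ (j + 1) := by
          rw [Finset.sum_const, Finset.Nat.card_antidiagonal, smul_eq_mul]; ring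

lemma sum_r_le (c : ℕ → ℕ) (j N : ℕ) :
    ∑ k ∈ range (N + 1), r c j k ≤ (∑ k ∈ range (N + 1), c k) ^ j := by
  induction j with
  | zero => 
    simp only [r_zero, pow_zero]
    rw [Finset.sum_ite_eq']
    split_ifs <;> simp
  | succ j ih =>
    simp only [r_succ]
    rw [pow_succ, mul_comm]
    refine le_trans ?_ (Nat.mul_le_mul_left _ ih)
    rw [Finset.sum_mul_sum, ← Finset.sum_product']
    rw [Finset.sum_sigma']
    have hinj : Set.InjOn (fun p : (Σ _ : ℕ, ℕ × ℕ) => p.2)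
        (((range (N + 1)).sigma fun k => HasAntidiagonal.antidiagonal k : Finset (Σ _ : ℕ, ℕ × ℕ)) :
          Set (Σ _ : ℕ, ℕ × ℕ)) := by
      rintro ⟨p1, p2⟩ hp ⟨q1, q2⟩ hq hpq
      simp only [Finset.mem_coe, Finset.mem_sigma, HasAntidiagonal.mem_antidiagonal] at hp hq hpq
      subst hpq
      have : p1 = q1 := by rw [← hp.2, ← hq.2]
      subst this
      rfl
    have h1 := Finset.sum_image (s := ((range (N + 1)).sigma fun k => HasAntidiagonal.antidiagonal k))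
      (g := fun p : (Σ _ : ℕ, ℕ × ℕ) => p.2) (f := fun p : ℕ × ℕ => c p.1 * r c j p.2) hinj
    rw [← h1]
    apply Finset.sum_le_sum_of_subset
    intro p hp
    simp only [Finset.mem_image, Finset.mem_sigma, Finset.mem_range,
      HasAntidiagonal.mem_antidiagonal, Finset.mem_product] at hp ⊢
    obtain ⟨a, ⟨h1, h2⟩, h3⟩ := hp
    subst h3
    omega

lemma r_add_ge (c : ℕ → ℕ) (j k a : ℕ) : c a * r c j k ≤ r c (j+1) (a + k) := by
  rw [r_succ]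
  exact Finset.single_le_sum (f := fun p : ℕ × ℕ => c p.1 * r c j p.2)
    (fun p _ => Nat.zero_le _) (HasAntidiagonal.mem_antidiagonal.2 (show (a, k).1 + (a, k).2 = a + k from rfl))

lemma r_nested (c : ℕ → ℕ) (h0 : c 0 = 1) (j k : ℕ) (h : r c j k ≠ 0) : r c (j+1) k ≠ 0 := by
  have := r_add_ge c j k 0
  rw [h0, one_mul, zero_add] at this
  omega

lemma r_nested_le (c : ℕ → ℕ) (h0 : c 0 = 1) (i j k : ℕ) (hij : i ≤ j) (h : r c i k ≠ 0) :
    r c j k ≠ 0 := by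
  induction j, hij using Nat.le_induction with
  | base => exact h
  | succ j _ ih => exact r_nested c h0 j k ih

lemma r_at_zero (c : ℕ → ℕ) (h0 : c 0 = 1) (j : ℕ) : r c j 0 = 1 := by
  induction j with
  | zero => simp [r_zero]
  | succ j ih => rw [r_succ]; simp [h0, ih]

/-! ### scaled tails -/

/-- scaled tail of the series `Y = ∑ a_k b^{-k}` -/
noncomputable def Wt (b : ℕ) (a : ℕ → ℕ) (Y : ℝ) (R : ℕ) : ℝ :=
  (b : ℝ) ^ R * (Y - ∑ k ∈ range (R + 1), (a k : ℝ) * ((b : ℝ)⁻¹) ^ k)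

lemma Wt_zero (b : ℕ) (a : ℕ → ℕ) (Y : ℝ) : Wt b a Y 0 = Y - a 0 := by
  simp [Wt]

lemma Wt_succ (b : ℕ) (hb : 2 ≤ b) (a : ℕ → ℕ) (Y : ℝ) (R : ℕ) :
    Wt b a Y (R + 1) = b * Wt b a Y R - a (R + 1) := by
  have hb0 : (b : ℝ) ≠ 0 := by positivity
  unfold Wt
  rw [Finset.sum_range_succ _ (R + 1)]
  have h1 : (b : ℝ) ^ (R + 1) * ((b : ℝ)⁻¹) ^ (R + 1) = 1 := by
    rw [← mul_pow, mul_inv_cancel₀ hb0, one_pow]
  have : (b : ℝ) ^ (R + 1) * (Y - (∑ x ∈ range (R + 1), (a x : ℝ) * (b : ℝ)⁻¹ ^ x +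
      (a (R + 1) : ℝ) * (b : ℝ)⁻¹ ^ (R + 1))) =
      (b : ℝ) ^ (R + 1) * (Y - (∑ x ∈ range (R + 1), (a x : ℝ) * (b : ℝ)⁻¹ ^ x)) -
      (a (R + 1) : ℝ) * ((b : ℝ) ^ (R + 1) * ((b : ℝ)⁻¹) ^ (R + 1)) := by ring
  rw [this, h1, pow_succ]; ring

lemma Wt_nonneg (b : ℕ) (a : ℕ → ℕ) (Y : ℝ)
    (h : HasSum (fun k => (a k : ℝ) * ((b : ℝ)⁻¹) ^ k) Y) (R : ℕ) : 0 ≤ Wt b a Y R := by
  unfold Wt
  apply mul_nonneg (by positivity)
  rw [sub_nonneg]
  exact sum_le_hasSum _ (fun k _ => by positivity) h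

lemma summable_poly_geom (b : ℕ) (hb : 2 ≤ b) (j : ℕ) :
    Summable (fun m : ℕ => ((m : ℝ) + 2) ^ j * ((b : ℝ)⁻¹) ^ (m + 1)) := by
  have hb1 : (1 : ℝ) < b := by exact_mod_cast hb
  have hx : ‖((b : ℝ)⁻¹)‖ < 1 := by
    rw [norm_inv, Real.norm_of_nonneg (by positivity)]
    exact inv_lt_one_of_one_lt₀ hb1
  have h1 := summable_pow_mul_geometric_of_norm_lt_one j hx
  have h2 := (summable_nat_add_iff 2).2 h1
  have h3 := h2.mul_left (b : ℝ)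
  refine h3.congr ?_
  intro m
  have hb0 : (b : ℝ) ≠ 0 := by positivity
  push_cast
  rw [pow_succ ((b : ℝ)⁻¹) (m + 1)]
  field_simp

lemma Wt_le (b : ℕ) (hb : 2 ≤ b) (j : ℕ) : ∃ C : ℝ, 0 < C ∧ ∀ (a : ℕ → ℕ) (Y : ℝ),
    HasSum (fun k => (a k : ℝ) * ((b : ℝ)⁻¹) ^ k) Y → (∀ k, a k ≤ (b * (k + 1)) ^ j) →
    ∀ R, Wt b a Y R ≤ C * ((R : ℝ) + 1) ^ j := by
  have hs := summable_poly_geom b hb j
  set S : ℝ := ∑' m : ℕ, ((m : ℝ) + 2) ^ j * ((b : ℝ)⁻¹) ^ (m + 1) with hS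
  have hS0 : 0 ≤ S := tsum_nonneg (fun m => by positivity)
  refine ⟨(b : ℝ) ^ j * S + 1, by positivity, ?_⟩
  intro a Y h ha R
  have hb0 : (b : ℝ) ≠ 0 := by positivity
  have h1 := (hasSum_nat_add_iff' (R + 1)).2 h
  have h2 : HasSum (fun m => (b : ℝ) ^ R * ((a (m + (R + 1)) : ℝ) * ((b : ℝ)⁻¹) ^ (m + (R + 1))))
      (Wt b a Y R) := h1.mul_left _
  have h3 : HasSum (fun m : ℕ => ((b : ℝ) ^ j * ((R : ℝ) + 1) ^ j) * (((m : ℝ) + 2) ^ j * ((b : ℝ)⁻¹) ^ (m + 1)))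
      (((b : ℝ) ^ j * ((R : ℝ) + 1) ^ j) * S) := hs.hasSum.mul_left _
  have h4 : Wt b a Y R ≤ ((b : ℝ) ^ j * ((R : ℝ) + 1) ^ j) * S := by
    refine hasSum_le ?_ h2 h3
    intro m
    have e1 : (b : ℝ) ^ R * ((a (m + (R + 1)) : ℝ) * ((b : ℝ)⁻¹) ^ (m + (R + 1))) =
        (a (m + (R + 1)) : ℝ) * ((b : ℝ)⁻¹) ^ (m + 1) := by
      have : ((b : ℝ)⁻¹) ^ (m + (R + 1)) = ((b : ℝ)⁻¹) ^ (m + 1) * ((b : ℝ)⁻¹) ^ R := by
        rw [← pow_add]; congr 1; ring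
      rw [this]
      have e2 : (b : ℝ) ^ R * ((b : ℝ)⁻¹) ^ R = 1 := by
        rw [← mul_pow, mul_inv_cancel₀ hb0, one_pow]
      calc (b : ℝ) ^ R * ((a (m + (R + 1)) : ℝ) * (((b : ℝ)⁻¹) ^ (m + 1) * ((b : ℝ)⁻¹) ^ R))
          = (a (m + (R + 1)) : ℝ) * ((b : ℝ)⁻¹) ^ (m + 1) * ((b : ℝ) ^ R * ((b : ℝ)⁻¹) ^ R) := by ring
        _ = _ := by rw [e2, mul_one]
    rw [e1]
    have e3 : (a (m + (R + 1)) : ℝ) ≤ (b : ℝ) ^ j * ((R : ℝ) + 1) ^ j * ((m : ℝ) + 2) ^ j := by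
      have := ha (m + (R + 1))
      have h5 : (a (m + (R + 1)) : ℝ) ≤ ((b : ℝ) * ((m + (R + 1) : ℕ) + 1)) ^ j := by
        exact_mod_cast this
      refine le_trans h5 ?_
      rw [← mul_pow, ← mul_pow]
      apply pow_le_pow_left₀ (by positivity)
      rw [mul_assoc]
      apply mul_le_mul_of_nonneg_left _ (by positivity)
      push_cast
      nlinarith [(Nat.cast_nonneg m : (0:ℝ) ≤ m), (Nat.cast_nonneg R : (0:ℝ) ≤ R),
        mul_nonneg (Nat.cast_nonneg m : (0:ℝ) ≤ m) (Nat.cast_nonneg R : (0:ℝ) ≤ R)]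
    calc (a (m + (R + 1)) : ℝ) * ((b : ℝ)⁻¹) ^ (m + 1) ≤
        ((b : ℝ) ^ j * ((R : ℝ) + 1) ^ j * ((m : ℝ) + 2) ^ j) * ((b : ℝ)⁻¹) ^ (m + 1) :=
          mul_le_mul_of_nonneg_right e3 (by positivity)
      _ = _ := by ring
  refine le_trans h4 ?_
  have : 0 ≤ ((R : ℝ) + 1) ^ j := by positivity
  nlinarith

lemma Wt_sum (b : ℕ) (hb : 2 ≤ b) (a : ℕ → ℕ) (Y : ℝ) (n : ℕ) :
    ((b : ℝ) - 1) * ∑ R ∈ range n, Wt b a Y R =
      ∑ R ∈ range n, (a (R + 1) : ℝ) + Wt b a Y n - Wt b a Y 0 := by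
  induction n with
  | zero => simp
  | succ n ih =>
    rw [Finset.sum_range_succ, Finset.sum_range_succ, mul_add, ih, Wt_succ b hb]
    ring

lemma Wt_le_add (b : ℕ) (hb : 2 ≤ b) (a : ℕ → ℕ) (Y : ℝ) (R L : ℕ) :
    Wt b a Y R ≤ ∑ k ∈ range L, (a (R + 1 + k) : ℝ) + ((b : ℝ)⁻¹) ^ L * Wt b a Y (R + L) := by
  have hb0 : (b : ℝ) ≠ 0 := by positivity
  have hb1 : (1 : ℝ) ≤ b := by exact_mod_cast (by omega : 1 ≤ b)
  induction L with
  | zero => simp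
  | succ L ih =>
    refine le_trans ih ?_
    rw [Finset.sum_range_succ]
    have h1 : Wt b a Y (R + (L + 1)) = b * Wt b a Y (R + L) - a (R + L + 1) := by
      rw [← add_assoc]; exact Wt_succ b hb a Y (R + L)
    have h2 : ((b : ℝ)⁻¹) ^ (L + 1) * Wt b a Y (R + (L + 1)) =
        ((b : ℝ)⁻¹) ^ L * Wt b a Y (R + L) - ((b : ℝ)⁻¹) ^ (L + 1) * a (R + L + 1) := by
      rw [h1, pow_succ]
      field_simp
    rw [h2]
    have h3 : ((b : ℝ)⁻¹) ^ (L + 1) * a (R + L + 1) ≤ a (R + 1 + L) := by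
      have : R + L + 1 = R + 1 + L := by ring
      rw [this]
      have h4 : ((b : ℝ)⁻¹) ^ (L + 1) ≤ 1 := pow_le_one₀ (by positivity) (inv_le_one_of_one_le₀ hb1)
      have h5 : (0 : ℝ) ≤ a (R + 1 + L) := Nat.cast_nonneg _
      nlinarith
    linarith

lemma Wt_gap (b : ℕ) (hb : 2 ≤ b) (a : ℕ → ℕ) (Y : ℝ) (R L : ℕ)
    (h : ∀ k, R < k → k ≤ R + L → a k = 0) :
    Wt b a Y R = ((b : ℝ)⁻¹) ^ L * Wt b a Y (R + L) := by
  have hb0 : (b : ℝ) ≠ 0 := by positivity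
  induction L with
  | zero => simp
  | succ L ih =>
    rw [ih (fun k h1 h2 => h k h1 (by omega))]
    have h1 : Wt b a Y (R + (L + 1)) = b * Wt b a Y (R + L) - a (R + L + 1) := by
      rw [← add_assoc]; exact Wt_succ b hb a Y (R + L)
    rw [h1, h (R + L + 1) (by omega) (by omega), pow_succ]
    field_simp
    simp

end Pool.Agent.H949R2
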