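import Pool.Agent.H949R2.Main2
import Pool.Agent.H393R2.ThmA
import Pool.Agent.H393R2.Glue814
import Pool.Agent.H393R2.Geom4

set_option autoImplicit false

open Finset Filter

namespace Pool.Agent.H949R2

/-- the `k`-th base-`b` digit after the radix point of the real number `x` (`k ≥ 1`):
the last base-`b` digit of the integer `⌊b^k x⌋`. -/
noncomputable def digit (b : ℕ) (x : ℝ) (k : ℕ) : ℕ := (⌊(b : ℝ) ^ k * x⌋ % (b : ℤ)).toNat

/-- the sum of the first `N` base-`b` digits of `x` after the radix point. -/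
noncomputable def digitSum (b : ℕ) (x : ℝ) (N : ℕ) : ℕ := ∑ k ∈ Finset.Icc 1 N, digit b x k

lemma digit_cast (b : ℕ) (hb : 2 ≤ b) (x : ℝ) (k : ℕ) :
    (digit b x k : ℤ) = ⌊(b : ℝ) ^ k * x⌋ % (b : ℤ) := by
  unfold digit
  exact Int.toNat_of_nonneg (Int.emod_nonneg _ (by omega))

lemma digit_lt (b : ℕ) (hb : 2 ≤ b) (x : ℝ) (k : ℕ) : digit b x k < b := by
  have h1 := digit_cast b hb x k
  have h2 : ⌊(b : ℝ) ^ k * x⌋ % (b : ℤ) < b := Int.emod_lt_of_pos _ (by omega)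
  omega

lemma digit_add_int (b : ℕ) (hb : 2 ≤ b) (x : ℝ) (s : ℤ) (k : ℕ) (hk : 1 ≤ k) :
    digit b (x + s) k = digit b x k := by
  have h1 := digit_cast b hb x k
  have h2 := digit_cast b hb (x + s) k
  have h3 : (b : ℝ) ^ k * (x + s) = (b : ℝ) ^ k * x + (((b : ℤ) ^ k * s : ℤ) : ℝ) := by
    push_cast; ring
  rw [h3, Int.floor_add_intCast] at h2
  have h4 : (⌊(b : ℝ) ^ k * x⌋ + (b : ℤ) ^ k * s) % (b : ℤ) = ⌊(b : ℝ) ^ k * x⌋ % (b : ℤ) := by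
    obtain ⟨j, rfl⟩ : ∃ j, k = j + 1 := ⟨k - 1, by omega⟩
    have : (b : ℤ) ^ (j + 1) * s = (b : ℤ) * ((b : ℤ) ^ j * s) := by ring
    rw [this, Int.add_mul_emod_self_left]
  rw [h4, ← h1] at h2
  exact_mod_cast h2

lemma digitSum_add_int (b : ℕ) (hb : 2 ≤ b) (x : ℝ) (s : ℤ) (N : ℕ) :
    digitSum b (x + s) N = digitSum b x N := by
  unfold digitSum
  apply Finset.sum_congr rfl
  intro k hk
  rw [Finset.mem_Icc] at hk
  exact digit_add_int b hb x s k hk.1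

lemma floor_succ (b : ℕ) (hb : 2 ≤ b) (x : ℝ) (k : ℕ) :
    ⌊(b : ℝ) ^ (k + 1) * x⌋ = b * ⌊(b : ℝ) ^ k * x⌋ + (digit b x (k + 1) : ℤ) := by
  have hb0 : (b : ℝ) ≠ 0 := by positivity
  rw [digit_cast b hb]
  have h1 : (b : ℝ) ^ k * x = ((b : ℝ) ^ (k + 1) * x) / (b : ℕ) := by
    rw [pow_succ]; field_simp
  have h2 : ⌊(b : ℝ) ^ k * x⌋ = ⌊(b : ℝ) ^ (k + 1) * x⌋ / (b : ℤ) := by
    rw [h1, Int.floor_div_natCast]
  rw [h2]
  exact (Int.mul_ediv_add_emod _ _).symm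

/-- digit sequence of a number in `[1,2)` -/
noncomputable def cc (b : ℕ) (x : ℝ) (k : ℕ) : ℕ := if k = 0 then 1 else digit b x k

lemma sum_cc (b : ℕ) (hb : 2 ≤ b) (x : ℝ) (hx : ⌊x⌋ = 1) (R : ℕ) :
    ∑ k ∈ range (R + 1), (cc b x k : ℝ) * ((b : ℝ)⁻¹) ^ k = ((b : ℝ)⁻¹) ^ R * ⌊(b : ℝ) ^ R * x⌋ := by
  have hb0 : (b : ℝ) ≠ 0 := by positivity
  induction R with
  | zero => simp [cc, hx]
  | succ R ih =>
    rw [Finset.sum_range_succ, ih, floor_succ b hb]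
    have : cc b x (R + 1) = digit b x (R + 1) := by simp [cc]
    rw [this]
    push_cast
    rw [pow_succ]
    field_simp

lemma hasSum_cc (b : ℕ) (hb : 2 ≤ b) (x : ℝ) (hx : ⌊x⌋ = 1) :
    HasSum (fun k => (cc b x k : ℝ) * ((b : ℝ)⁻¹) ^ k) x := by
  have hb1 : (1 : ℝ) < b := by exact_mod_cast hb
  have hb0 : (0 : ℝ) < b := by linarith
  rw [hasSum_iff_tendsto_nat_of_nonneg (fun i => by positivity)]
  rw [← tendsto_add_atTop_iff_nat 1]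
  simp_rw [sum_cc b hb x hx]
  have h1 : Tendsto (fun n : ℕ => ((b : ℝ)⁻¹) ^ n) atTop (nhds 0) :=
    tendsto_pow_atTop_nhds_zero_of_lt_one (by positivity) (inv_lt_one_of_one_lt₀ hb1)
  have h2 : Tendsto (fun n : ℕ => x - ((b : ℝ)⁻¹) ^ n) atTop (nhds x) := by
    have := h1.const_sub x
    simpa using this
  refine tendsto_of_tendsto_of_tendsto_of_le_of_le h2 tendsto_const_nhds ?_ ?_
  · intro n
    have h3 : (b : ℝ) ^ n * x - 1 < ⌊(b : ℝ) ^ n * x⌋ := Int.sub_one_lt_floor _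
    have h4 : ((b : ℝ)⁻¹) ^ n * ((b : ℝ) ^ n * x - 1) ≤ ((b : ℝ)⁻¹) ^ n * ⌊(b : ℝ) ^ n * x⌋ :=
      mul_le_mul_of_nonneg_left h3.le (by positivity)
    have h5 : ((b : ℝ)⁻¹) ^ n * ((b : ℝ) ^ n * x - 1) = x - ((b : ℝ)⁻¹) ^ n := by
      rw [mul_sub, ← mul_assoc, ← mul_pow, inv_mul_cancel₀ hb0.ne', one_pow]; ring
    rw [h5] at h4
    exact h4
  · intro n
    have h3 : (⌊(b : ℝ) ^ n * x⌋ : ℝ) ≤ (b : ℝ) ^ n * x := Int.floor_le _
    have h4 : ((b : ℝ)⁻¹) ^ n * ⌊(b : ℝ) ^ n * x⌋ ≤ ((b : ℝ)⁻¹) ^ n * ((b : ℝ) ^ n * x) :=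
      mul_le_mul_of_nonneg_left h3 (by positivity)
    have h5 : ((b : ℝ)⁻¹) ^ n * ((b : ℝ) ^ n * x) = x := by
      rw [← mul_assoc, ← mul_pow, inv_mul_cancel₀ hb0.ne', one_pow, one_mul]
    rw [h5] at h4
    exact h4

lemma floor_gap (b : ℕ) (hb : 2 ≤ b) (x : ℝ) (n j : ℕ)
    (h : ∀ k, n < k → k ≤ n + j → digit b x k = 0) :
    ⌊(b : ℝ) ^ (n + j) * x⌋ = (b : ℤ) ^ j * ⌊(b : ℝ) ^ n * x⌋ := by
  induction j with
  | zero => simp
  | succ j ih =>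
    have h1 := floor_succ b hb x (n + j)
    rw [ih (fun k h1 h2 => h k h1 (by omega)), h (n + j + 1) (by omega) (by omega)] at h1
    rw [← add_assoc, h1]
    push_cast
    ring

/-- Ridout: the gaps between non-zero digits are short -/
lemma ridout_gap (b : ℕ) (hb : 2 ≤ b) (x : ℝ) (hx : ⌊x⌋ = 1) (halg : IsAlgebraic ℚ x)
    (hirr : Irrational x) (ε : ℝ) (hε : 0 < ε) :
    ∃ n0 : ℕ, ∀ n : ℕ, n0 ≤ n → ∃ k : ℕ, n < k ∧ (k : ℝ) ≤ (1 + ε) * n ∧ cc b x k ≠ 0 := by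
  have hb1 : (1 : ℝ) < b := by exact_mod_cast hb
  have hb0 : (0 : ℝ) < b := by linarith
  set δ : ℝ := min (ε / 2) 1 with hδ
  have hδ0 : 0 < δ := lt_min (by positivity) one_pos
  have hδ1 : δ ≤ 1 := min_le_right _ _
  have hδε : δ ≤ ε / 2 := min_le_left _ _
  obtain ⟨ε', hε', L0, hL0⟩ := Pool.Agent.H393R2.thmA_of Pool.Agent.H393R2.auxPolyStmt
    Pool.Agent.H393R2.rothStmt (fun n hn => Pool.Agent.H393R2.geometry n hn) b hb x halg hirr 0 δ hδ0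
  refine ⟨max L0 ⌈2 / ε⌉₊, ?_⟩
  intro n hn
  have hn1 : L0 ≤ n := le_trans (le_max_left _ _) hn
  have hn2 : 2 / ε ≤ n := by
    refine le_trans (Nat.le_ceil _) ?_
    exact_mod_cast le_trans (le_max_right _ _) hn
  have hn3 : 2 ≤ ε * n := by
    rw [div_le_iff₀ hε] at hn2; linarith
  have hnn : (0 : ℝ) ≤ n := Nat.cast_nonneg n
  have key := hL0 n n hn1 (by nlinarith) (by nlinarith) (fun _ => 1) (by
    intro h; have := congrFun h 0; simp at this) (by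
    intro j
    simp only [Int.cast_one, abs_one]
    exact Real.one_le_rpow hb1.le (by positivity)) ⌊(b : ℝ) ^ n * x⌋
  have e1 : (∑ j : Fin (0 + 1), ((1 : ℤ) : ℝ) * (b : ℝ) ^ (n + (j : ℕ) * n)) = (b : ℝ) ^ n := by
    simp
  rw [e1] at key
  have e2 : |x * (b : ℝ) ^ n - (⌊(b : ℝ) ^ n * x⌋ : ℝ)| = (b : ℝ) ^ n * x - ⌊(b : ℝ) ^ n * x⌋ := by
    rw [mul_comm x]
    exact abs_of_nonneg (by linarith [Int.floor_le ((b : ℝ) ^ n * x)])
  rw [e2] at key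
  by_contra hcon
  push Not at hcon
  set j : ℕ := ⌊ε * n⌋₊ with hj
  have hjle : (j : ℝ) ≤ ε * n := Nat.floor_le (by positivity)
  have hjlt : ε * n < j + 1 := Nat.lt_floor_add_one _
  have hgap : ∀ k, n < k → k ≤ n + j → digit b x k = 0 := by
    intro k h1 h2
    have h3 := hcon k h1 (by
      have : (k : ℝ) ≤ n + j := by exact_mod_cast h2
      linarith)
    have hk0 : k ≠ 0 := by omega
    simpa [cc, hk0] using h3
  have hf := floor_gap b hb x n j hgap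
  have h5 : (b : ℝ) ^ (n + j) * x < ⌊(b : ℝ) ^ (n + j) * x⌋ + 1 := Int.lt_floor_add_one _
  rw [hf] at h5
  push_cast at h5
  have h6 : (b : ℝ) ^ j * ((b : ℝ) ^ n * x - ⌊(b : ℝ) ^ n * x⌋) < 1 := by
    rw [pow_add] at h5
    linarith
  have h7 : (b : ℝ) ^ j * (b : ℝ) ^ (-(δ * n)) < 1 := by
    refine lt_of_lt_of_le (mul_lt_mul_of_pos_left key (by positivity)) h6.le
  have h8 : (b : ℝ) ^ j * (b : ℝ) ^ (-(δ * n)) = (b : ℝ) ^ ((j : ℝ) + -(δ * n)) := by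
    rw [Real.rpow_add hb0, Real.rpow_natCast]
  rw [h8] at h7
  have h9 : 0 ≤ (j : ℝ) + -(δ * n) := by
    have : δ * n ≤ ε / 2 * n := mul_le_mul_of_nonneg_right hδε hnn
    linarith
  have h10 := Real.one_le_rpow hb1.le h9
  linarith

end Pool.Agent.H949R2
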