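import Pool.Agent.H949R2.Conv

set_option autoImplicit false

open Finset

namespace Pool.Agent.H949R2

lemma r_pow_ge (c : ℕ → ℕ) (j k a t : ℕ) : (c a) ^ t * r c j k ≤ r c (j + t) (t * a + k) := by
  induction t with
  | zero => simp
  | succ t ih =>
    have h1 := r_add_ge c (j + t) (t * a + k) a
    have e1 : a + (t * a + k) = (t + 1) * a + k := by ring
    have e2 : j + t + 1 = j + (t + 1) := by ring
    rw [e1, e2] at h1
    refine le_trans ?_ h1
    calc (c a) ^ (t + 1) * r c j k = c a * ((c a) ^ t * r c j k) := by ring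
      _ ≤ _ := Nat.mul_le_mul_left _ ih

lemma r_ne_zero_of (c : ℕ → ℕ) (s : Finset ℕ) (κ : ℕ → ℕ)
    (h : ∀ i ∈ s, κ i ≠ 0 → c i ≠ 0) :
    r c (∑ i ∈ s, κ i) (∑ i ∈ s, κ i * i) ≠ 0 := by
  induction s using Finset.induction_on with
  | empty => simp [r_zero]
  | insert a s ha ih =>
    rw [Finset.sum_insert ha, Finset.sum_insert ha]
    have h1 := r_pow_ge c (∑ i ∈ s, κ i) (∑ i ∈ s, κ i * i) a (κ a)
    have h2 := ih (fun i hi => h i (Finset.mem_insert_of_mem hi))
    have h3 : (c a) ^ (κ a) ≠ 0 := by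
      by_cases hk : κ a = 0
      · simp [hk]
      · exact pow_ne_zero _ (h a (Finset.mem_insert_self _ _) hk)
    rw [add_comm (κ a) (∑ i ∈ s, κ i)]
    have h4 : 0 < (c a) ^ (κ a) * r c (∑ i ∈ s, κ i) (∑ i ∈ s, κ i * i) :=
      Nat.mul_pos (Nat.pos_of_ne_zero h3) (Nat.pos_of_ne_zero h2)
    omega

/-- degenerate positions: sums of `D` positions with nonzero digit, one of them repeated. -/
def Deg (c : ℕ → ℕ) (D n : ℕ) : Prop := ∃ a m, 2 * a + m = n ∧ c a ≠ 0 ∧ r c (D - 2) m ≠ 0

noncomputable def q (c : ℕ → ℕ) (n : ℕ) : Polynomial ℕ :=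
  ∑ i ∈ range (n + 1), Polynomial.monomial i (c i)

lemma coeff_q (c : ℕ → ℕ) (n k : ℕ) (hk : k ≤ n) : (q c n).coeff k = c k := by
  unfold q
  rw [Polynomial.finset_sum_coeff]
  simp only [Polynomial.coeff_monomial]
  rw [Finset.sum_ite_eq']
  rw [if_pos (Finset.mem_range.2 (by omega))]

lemma coeff_q_pow (c : ℕ → ℕ) (n j k : ℕ) (hk : k ≤ n) : ((q c n) ^ j).coeff k = r c j k := by
  induction j generalizing k with
  | zero => 
    rw [pow_zero, Polynomial.coeff_one, r_zero]
  | succ j ih =>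
    rw [pow_succ, mul_comm, Polynomial.coeff_mul, r_succ]
    apply Finset.sum_congr rfl
    intro p hp
    rw [HasAntidiagonal.mem_antidiagonal] at hp
    rw [coeff_q c n p.1 (by omega), ih p.2 (by omega)]

lemma prod_monomial_pow (c : ℕ → ℕ) (s : Finset ℕ) (κ : ℕ → ℕ) :
    ∏ i ∈ s, (Polynomial.monomial i (c i)) ^ (κ i) =
      Polynomial.monomial (∑ i ∈ s, κ i * i) (∏ i ∈ s, (c i) ^ (κ i)) := by
  induction s using Finset.induction_on with
  | empty => simp
  | insert a s ha ih =>
    rw [Finset.prod_insert ha, ih, Finset.sum_insert ha, Finset.prod_insert ha,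
      Polynomial.monomial_pow, Polynomial.monomial_mul_monomial]
    congr 2
    ring

lemma factorial_dvd_r (c : ℕ → ℕ) (D n : ℕ) (hD : 2 ≤ D) (h : ¬ Deg c D n) :
    Nat.factorial D ∣ r c D n := by
  rw [← coeff_q_pow c n D n le_rfl]
  unfold q
  rw [Finset.sum_pow_eq_sum_piAntidiag, Polynomial.finset_sum_coeff]
  apply Finset.dvd_sum
  intro κ hκ
  rw [Finset.mem_piAntidiag] at hκ
  obtain ⟨hκ1, hκ2⟩ := hκ
  rw [prod_monomial_pow, Polynomial.coeff_natCast_mul, Polynomial.coeff_monomial]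
  by_cases hsum : ∑ i ∈ range (n + 1), κ i * i = n
  swap
  · rw [if_neg hsum, mul_zero]; exact dvd_zero _
  rw [if_pos hsum]
  by_cases hprod : ∏ i ∈ range (n + 1), (c i) ^ (κ i) = 0
  · rw [hprod, mul_zero]; exact dvd_zero _
  have hc : ∀ i ∈ range (n + 1), κ i ≠ 0 → c i ≠ 0 := by
    intro i hi hk hci
    apply hprod
    apply Finset.prod_eq_zero hi
    rw [hci]
    exact zero_pow hk
  have hle : ∀ i ∈ range (n + 1), κ i ≤ 1 := by
    intro a ha
    by_contra hcon
    push Not at hcon
    apply h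
    -- κ' = κ - 2 at a
    let κ' : ℕ → ℕ := fun i => if i = a then κ i - 2 else κ i
    have h1 : ∑ i ∈ range (n + 1), κ i = 2 + ∑ i ∈ range (n + 1), κ' i := by
      rw [← Finset.add_sum_erase _ _ ha, ← Finset.add_sum_erase _ κ' ha]
      have : ∑ x ∈ (range (n + 1)).erase a, κ' x = ∑ x ∈ (range (n + 1)).erase a, κ x := by
        apply Finset.sum_congr rfl
        intro x hx
        simp only [κ', if_neg (Finset.ne_of_mem_erase hx)]
      rw [this]
      simp only [κ', if_true]
      omega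
    have h2 : ∑ i ∈ range (n + 1), κ i * i = 2 * a + ∑ i ∈ range (n + 1), κ' i * i := by
      rw [← Finset.add_sum_erase _ _ ha, ← Finset.add_sum_erase _ (fun i => κ' i * i) ha]
      have : ∑ x ∈ (range (n + 1)).erase a, κ' x * x = ∑ x ∈ (range (n + 1)).erase a, κ x * x := by
        apply Finset.sum_congr rfl
        intro x hx
        simp only [κ', if_neg (Finset.ne_of_mem_erase hx)]
      rw [this]
      simp only [κ', if_true]
      have : κ a = 2 + (κ a - 2) := by omega
      nth_rewrite 1 [this]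
      ring
    have h3 := r_ne_zero_of c (range (n + 1)) κ' (by
      intro i hi hk
      apply hc i hi
      by_cases hia : i = a
      · subst hia; omega
      · simpa [κ', hia] using hk)
    refine ⟨a, ∑ i ∈ range (n + 1), κ' i * i, by rw [← h2]; exact hsum, hc a ha (by omega), ?_⟩
    have h4 : D - 2 = ∑ i ∈ range (n + 1), κ' i := by
      have : ∑ i ∈ range (n + 1), κ i = D := hκ1
      omega
    rw [h4]
    exact h3
  have hm : Nat.multinomial (range (n + 1)) κ = Nat.factorial D := by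
    have h1 := Nat.multinomial_spec (range (n + 1)) κ
    have h2 : ∏ i ∈ range (n + 1), (κ i).factorial = 1 := by
      apply Finset.prod_eq_one
      intro i hi
      have := hle i hi
      interval_cases (κ i) <;> rfl
    rw [h2, one_mul] at h1
    rw [h1]
    congr 1
  rw [hm]
  exact Dvd.intro _ rfl

lemma card_r_ne_zero_le (c : ℕ → ℕ) (j N : ℕ) :
    ((range (N + 1)).filter (fun k => r c j k ≠ 0)).card ≤ (∑ k ∈ range (N + 1), c k) ^ j := by
  refine le_trans ?_ (sum_r_le c j N)
  rw [Finset.card_eq_sum_ones, Finset.sum_filter]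
  apply Finset.sum_le_sum
  intro k _
  split_ifs with hk
  · omega
  · omega

lemma card_c_ne_zero_le (c : ℕ → ℕ) (N : ℕ) :
    ((range (N + 1)).filter (fun k => c k ≠ 0)).card ≤ ∑ k ∈ range (N + 1), c k := by
  rw [Finset.card_eq_sum_ones, Finset.sum_filter]
  apply Finset.sum_le_sum
  intro k _
  split_ifs with hk
  · omega
  · omega

open Classical in
lemma card_Deg_le (c : ℕ → ℕ) (D N : ℕ) (hD : 2 ≤ D) :
    ((range (N + 1)).filter (fun k => Deg c D k)).card ≤ (∑ k ∈ range (N + 1), c k) ^ (D - 1) := by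
  have h1 : ((range (N + 1)).filter (fun k => Deg c D k)) ⊆
      ((((range (N + 1)).filter (fun k => c k ≠ 0)) ×ˢ
        ((range (N + 1)).filter (fun k => r c (D - 2) k ≠ 0))).image (fun p => 2 * p.1 + p.2)) := by
    intro k hk
    rw [Finset.mem_filter, Finset.mem_range] at hk
    obtain ⟨hk1, a, m, hk2, hk3, hk4⟩ := hk
    rw [Finset.mem_image]
    refine ⟨(a, m), ?_, hk2⟩
    rw [Finset.mem_product, Finset.mem_filter, Finset.mem_filter, Finset.mem_range, Finset.mem_range]
    refine ⟨⟨?_, hk3⟩, ⟨?_, hk4⟩⟩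
    · show a < N + 1
      omega
    · show m < N + 1
      omega
  refine le_trans (Finset.card_le_card h1) ?_
  refine le_trans Finset.card_image_le ?_
  rw [Finset.card_product]
  refine le_trans (Nat.mul_le_mul (card_c_ne_zero_le c N) (card_r_ne_zero_le c (D - 2) N)) ?_
  apply le_of_eq
  rw [← pow_succ']
  congr 1
  omega

end Pool.Agent.H949R2
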