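import Pool.Agent.H949R2.Tail

set_option autoImplicit false

open Finset

namespace Pool.Agent.H949R2

/-- least positive residue of `t` modulo `M` -/
def lpr (M t : ℕ) : ℕ := if t % M = 0 then M else t % M

/-- On every cycle of multiplication by `b` modulo `M`, the average of the least positive
residues is at least `κ`. -/
def CycleAvg (b M : ℕ) (κ : ℝ) : Prop :=
  ∀ t : ℕ, κ * (Nat.totient M : ℝ) ≤ ∑ j ∈ range (Nat.totient M), (lpr M (b ^ (M + j) * t) : ℝ)

lemma lpr_le (M : ℕ) (hM : 0 < M) (t : ℕ) (x : ℤ) (hx : 0 < x) (h : (M : ℤ) ∣ x - t) :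
    (lpr M t : ℤ) ≤ x := by
  unfold lpr
  have hM' : (0 : ℤ) < M := by exact_mod_cast hM
  have h1 : x % M = (t : ℤ) % M := Int.emod_eq_emod_iff_emod_sub_eq_zero.2 (Int.emod_eq_zero_of_dvd h)
  have h2 : ((t % M : ℕ) : ℤ) = x % M := by rw [h1]; push_cast; rfl
  split_ifs with hz
  · have h3 : (M : ℤ) ∣ x := by
      apply Int.dvd_of_emod_eq_zero
      rw [← h2, hz]; rfl
    exact Int.le_of_dvd hx h3
  · rw [h2]
    have h3 := Int.emod_add_mul_ediv x M
    have h4 : 0 ≤ x / M := Int.ediv_nonneg hx.le hM'.le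
    have h5 : 0 ≤ (M : ℤ) * (x / M) := mul_nonneg hM'.le h4
    linarith

lemma T_cong (b : ℕ) (c : ℕ → ℕ) (h0 : c 0 = 1) (A : ℕ → ℤ) (D : ℕ) (hD : 2 ≤ D)
    (a M : ℕ) (ha : A D = a) (hM : M = a * D.factorial) (R n : ℕ)
    (h1 : ∀ k, R < k → k ≤ R + n → r c (D - 1) k = 0)
    (h2 : ∀ k, R < k → k ≤ R + n → ¬ Deg c D k) (i : ℕ) (hi : i ≤ n) :
    (M : ℤ) ∣ T b c A D (R + i) - (b : ℤ) ^ i * T b c A D R := by
  induction i with
  | zero => simp
  | succ i ih =>
    have ih' := ih (by omega)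
    have hz : r c (D - 1) (R + i + 1) = 0 := h1 _ (by omega) (by omega)
    have hrec := T_succ_good b c h0 A D (by omega) (R + i) hz
    have hdeg : ¬ Deg c D (R + i + 1) := h2 _ (by omega) (by omega)
    obtain ⟨z, hz'⟩ := factorial_dvd_r c D (R + i + 1) hD hdeg
    have e1 : T b c A D (R + (i + 1)) = T b c A D (R + i + 1) := by rw [add_assoc]
    rw [e1, hrec, hz', ha, hM]
    have e2 : (b : ℤ) * T b c A D (R + i) - (a : ℤ) * ((D.factorial * z : ℕ) : ℤ) -
        (b : ℤ) ^ (i + 1) * T b c A D R =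
        (b : ℤ) * (T b c A D (R + i) - (b : ℤ) ^ i * T b c A D R) -
          ((a * D.factorial : ℕ) : ℤ) * z := by
      push_cast; ring
    rw [e2, ← hM]
    exact dvd_sub (Dvd.dvd.mul_left ih' _) (Dvd.intro _ rfl)

/-- sum over a window -/
lemma window (b : ℕ) (c : ℕ → ℕ) (h0 : c 0 = 1) (A : ℕ → ℤ) (D : ℕ) (hD : 2 ≤ D)
    (a M : ℕ) (ha : A D = a) (hM : M = a * D.factorial) (ha0 : 0 < a) (κ : ℝ)
    (hκ : CycleAvg b M κ) (R : ℕ)
    (h1 : ∀ k, R < k → k ≤ R + (M + Nat.totient M) → r c (D - 1) k = 0)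
    (h2 : ∀ k, R < k → k ≤ R + (M + Nat.totient M) → ¬ Deg c D k)
    (hpos : ∀ j, j < Nat.totient M → 0 < T b c A D (R + (M + j))) :
    κ * (Nat.totient M : ℝ) ≤ ∑ j ∈ range (Nat.totient M), (T b c A D (R + (M + j)) : ℝ) := by
  have hMpos : 0 < M := by rw [hM]; exact Nat.mul_pos ha0 (Nat.factorial_pos D)
  have hM' : (0 : ℤ) < M := by exact_mod_cast hMpos
  set t : ℕ := (T b c A D R % (M : ℤ)).toNat with ht
  have ht' : (t : ℤ) = T b c A D R % (M : ℤ) := by
    rw [ht]; exact Int.toNat_of_nonneg (Int.emod_nonneg _ hM'.ne')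
  have htd : (M : ℤ) ∣ T b c A D R - t := by
    rw [ht']
    exact Int.dvd_self_sub_emod
  refine le_trans (hκ t) ?_
  apply Finset.sum_le_sum
  intro j hj
  rw [Finset.mem_range] at hj
  have h3 := T_cong b c h0 A D hD a M ha hM R (M + Nat.totient M) h1 h2 (M + j) (by omega)
  have h4 : (M : ℤ) ∣ T b c A D (R + (M + j)) - ((b ^ (M + j) * t : ℕ) : ℤ) := by
    have e : T b c A D (R + (M + j)) - ((b ^ (M + j) * t : ℕ) : ℤ) =
        (T b c A D (R + (M + j)) - (b : ℤ) ^ (M + j) * T b c A D R) +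
          (b : ℤ) ^ (M + j) * (T b c A D R - t) := by
      push_cast; ring
    rw [e]
    exact dvd_add h3 (Dvd.dvd.mul_left htd _)
  have h5 := lpr_le M hMpos _ _ (hpos j hj) h4
  exact_mod_cast h5

lemma sum_W_le (b : ℕ) (hb : 2 ≤ b) (a : ℕ → ℕ) (Y : ℝ)
    (h : HasSum (fun k => (a k : ℝ) * ((b : ℝ)⁻¹) ^ k) Y) (n L : ℕ) :
    ((b : ℝ) - 1) * ∑ R ∈ range n, Wt b a Y R ≤
      ∑ k ∈ range (n + L + 1), (a k : ℝ) + ((b : ℝ)⁻¹) ^ L * Wt b a Y (n + L) := by
  rw [Wt_sum b hb]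
  have h1 := Wt_le_add b hb a Y n L
  have h2 := Wt_nonneg b a Y h 0
  have h3 : ∑ k ∈ range (n + L + 1), (a k : ℝ) = (a 0 : ℝ) + ∑ R ∈ range n, (a (R + 1) : ℝ) +
      ∑ k ∈ range L, (a (n + 1 + k) : ℝ) := by
    have e : n + L + 1 = (n + 1) + L := by ring
    rw [e, Finset.sum_range_add, Finset.sum_range_succ']
    ring
  rw [h3]
  have h4 : (0 : ℝ) ≤ a 0 := Nat.cast_nonneg _
  linarith

open Classical in
/-- the counting estimate -/
lemma counting (b : ℕ) (hb : 2 ≤ b) (c : ℕ → ℕ) (h0 : c 0 = 1)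
    (A : ℕ → ℤ) (D : ℕ) (hD : 2 ≤ D)
    (a M : ℕ) (ha : A D = a) (hM : M = a * D.factorial) (ha0 : 0 < a) (κ : ℝ) (hκ0 : 0 ≤ κ)
    (hκ : CycleAvg b M κ) (y : ℝ)
    (hy : HasSum (fun k => (c k : ℝ) * ((b : ℝ)⁻¹) ^ k) y)
    (N L Q : ℕ) (hQ : Q = M + Nat.totient M + L) (hQN : Q ≤ N) (θ : ℝ) (hθ0 : 0 ≤ θ)
    (hclose : ∀ R, R + L ≤ N → (∀ k, R < k → k ≤ R + L → r c (D - 1) k = 0) →
      |(T b c A D R : ℝ) - A D * Wt b (r c D) (y ^ D) R| ≤ θ)
    (G : ℕ) (hG : (∑ k ∈ range (N + 1), c k) ^ (D - 1) ≤ G)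
    (z : ℝ) (hz : (((range (N + 1)).filter (fun R => R + L ≤ N ∧
      (∀ k, R < k → k ≤ R + L → r c (D - 1) k = 0) ∧ T b c A D R ≤ 0)).card : ℝ) ≤ z) :
    ((b : ℝ) - 1) * κ * ((N : ℝ) + 1 - Q - 2 * Q * G - Nat.totient M * z) ≤
      a * (((∑ k ∈ range (N + 1), c k : ℕ) : ℝ) ^ D +
        ((b : ℝ)⁻¹) ^ L * Wt b (r c D) (y ^ D) N) + ((b : ℝ) - 1) * (θ * (N + 1)) := by
  have hMpos : 0 < M := by rw [hM]; exact Nat.mul_pos ha0 (Nat.factorial_pos D)
  set f := Nat.totient M with hf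
  have hfpos : 0 < f := Nat.totient_pos.2 hMpos
  have hfR : (0 : ℝ) < f := by exact_mod_cast hfpos
  have hb1 : (0 : ℝ) < (b : ℝ) - 1 := by
    have : (2 : ℝ) ≤ b := by exact_mod_cast hb
    linarith
  set W : ℕ → ℝ := fun R => Wt b (r c D) (y ^ D) R with hW
  have hyD := hasSum_r c ((b : ℝ)⁻¹) y (by positivity) hy D
  have hWn : ∀ R, 0 ≤ W R := fun R => Wt_nonneg b (r c D) (y ^ D) hyD R
  set Z := (range (N + 1)).filter (fun R => R + L ≤ N ∧
      (∀ k, R < k → k ≤ R + L → r c (D - 1) k = 0) ∧ T b c A D R ≤ 0) with hZ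
  set EF := (range (N + 1)).filter (fun k => r c (D - 1) k ≠ 0 ∨ Deg c D k) with hEF
  set Base := range (N + 1 - Q) with hBase
  set Bad1 := Base.filter (fun R => ∃ k ∈ EF, R < k ∧ k ≤ R + Q) with hBad1
  set Bad2 := Base.filter (fun R => ∃ j ∈ range f, R + (M + j) ∈ Z) with hBad2
  set Fine := Base.filter (fun R => ¬ (∃ k ∈ EF, R < k ∧ k ≤ R + Q) ∧
    ¬ (∃ j ∈ range f, R + (M + j) ∈ Z)) with hFine
  have hEFc : EF.card ≤ 2 * G := by
    have h1 : EF ⊆ ((range (N + 1)).filter (fun k => r c (D - 1) k ≠ 0)) ∪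
        ((range (N + 1)).filter (fun k => Deg c D k)) := by
      intro k hk
      rw [hEF, Finset.mem_filter] at hk
      rw [Finset.mem_union, Finset.mem_filter, Finset.mem_filter]
      tauto
    have h2 := Finset.card_le_card h1
    have h3 := Finset.card_union_le ((range (N + 1)).filter (fun k => r c (D - 1) k ≠ 0))
      ((range (N + 1)).filter (fun k => Deg c D k))
    have h4 := card_r_ne_zero_le c (D - 1) N
    have h5 := card_Deg_le c D N hD
    omega
  have hB1 : Bad1.card ≤ Q * (2 * G) := by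
    have h1 : Bad1 ⊆ EF.biUnion (fun k => Finset.Ico (k - Q) k) := by
      intro R hR
      rw [hBad1, Finset.mem_filter] at hR
      obtain ⟨_, k, hk1, hk2, hk3⟩ := hR
      rw [Finset.mem_biUnion]
      exact ⟨k, hk1, by rw [Finset.mem_Ico]; omega⟩
    refine le_trans (Finset.card_le_card h1) ?_
    refine le_trans Finset.card_biUnion_le ?_
    refine le_trans (Finset.sum_le_card_nsmul _ _ Q ?_) ?_
    · intro k _
      rw [Nat.card_Ico]; omega
    · rw [smul_eq_mul, mul_comm]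
      exact Nat.mul_le_mul_left _ hEFc
  have hB2 : Bad2.card ≤ f * Z.card := by
    have h1 : Bad2 ⊆ (range f).biUnion (fun j => Base.filter (fun R => R + (M + j) ∈ Z)) := by
      intro R hR
      rw [hBad2, Finset.mem_filter] at hR
      obtain ⟨hR1, j, hj1, hj2⟩ := hR
      rw [Finset.mem_biUnion]
      exact ⟨j, hj1, by rw [Finset.mem_filter]; exact ⟨hR1, hj2⟩⟩
    refine le_trans (Finset.card_le_card h1) ?_
    refine le_trans Finset.card_biUnion_le ?_
    refine le_trans (Finset.sum_le_card_nsmul _ _ Z.card ?_) ?_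
    · intro j _
      apply Finset.card_le_card_of_injOn (fun R => R + (M + j))
      · intro R hR
        rw [Finset.mem_coe, Finset.mem_filter] at hR
        exact hR.2
      · intro x _ y _ hxy
        simpa using hxy
    · rw [Finset.card_range, smul_eq_mul]
  have hFc : (N : ℝ) + 1 - Q - 2 * Q * G - f * z ≤ Fine.card := by
    have h1 : Base ⊆ Fine ∪ (Bad1 ∪ Bad2) := by
      intro R hR
      rw [Finset.mem_union, Finset.mem_union, hFine, hBad1, hBad2, Finset.mem_filter,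
        Finset.mem_filter, Finset.mem_filter]
      tauto
    have h2 := Finset.card_le_card h1
    have h3 := Finset.card_union_le Fine (Bad1 ∪ Bad2)
    have h4 := Finset.card_union_le Bad1 Bad2
    have h5 : Base.card = N + 1 - Q := by rw [hBase, Finset.card_range]
    have h6 : N + 1 ≤ Fine.card + Q * (2 * G) + f * Z.card + Q := by omega
    have h7 : (N : ℝ) + 1 ≤ Fine.card + Q * (2 * G) + f * Z.card + Q := by exact_mod_cast h6
    have h8 : (f : ℝ) * Z.card ≤ f * z := mul_le_mul_of_nonneg_left hz hfR.le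
    linarith
  have hfine : ∀ R ∈ Fine, κ * (f : ℝ) ≤ ∑ j ∈ range f, ((a : ℝ) * W (R + (M + j)) + θ) := by
    intro R hR
    rw [hFine, Finset.mem_filter, hBase, Finset.mem_range] at hR
    obtain ⟨hR1, hR2, hR3⟩ := hR
    have hfreeE : ∀ k, R < k → k ≤ R + Q → r c (D - 1) k = 0 := by
      intro k h1 h2
      by_contra hne
      exact hR2 ⟨k, by rw [hEF, Finset.mem_filter, Finset.mem_range]; exact ⟨by omega, Or.inl hne⟩, h1, h2⟩
    have hfreeF : ∀ k, R < k → k ≤ R + Q → ¬ Deg c D k := by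
      intro k h1 h2 hne
      exact hR2 ⟨k, by rw [hEF, Finset.mem_filter, Finset.mem_range]; exact ⟨by omega, Or.inr hne⟩, h1, h2⟩
    have hgood : ∀ j, j < f → (∀ k, R + (M + j) < k → k ≤ R + (M + j) + L → r c (D - 1) k = 0) := by
      intro j hj k h1 h2
      exact hfreeE k (by omega) (by omega)
    have hpos : ∀ j, j < f → 0 < T b c A D (R + (M + j)) := by
      intro j hj
      by_contra hcon
      push Not at hcon
      apply hR3
      refine ⟨j, Finset.mem_range.2 hj, ?_⟩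
      rw [hZ, Finset.mem_filter, Finset.mem_range]
      exact ⟨by omega, by omega, hgood j hj, hcon⟩
    have h1 := window b c h0 A D hD a M ha hM ha0 κ hκ R
      (fun k h1 h2 => hfreeE k h1 (by omega)) (fun k h1 h2 => hfreeF k h1 (by omega)) hpos
    refine le_trans h1 ?_
    apply Finset.sum_le_sum
    intro j hj
    rw [Finset.mem_range] at hj
    have h2 := hclose (R + (M + j)) (by omega) (hgood j hj)
    have h3 := (abs_le.1 h2).2
    have h4 : ((A D : ℤ) : ℝ) = a := by rw [ha]; simp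
    rw [h4] at h3
    simp only [hW]
    linarith
  have hsumj : ∀ j ∈ range f, ∑ R ∈ Fine, W (R + (M + j)) ≤ ∑ R ∈ range (N - L), W R := by
    intro j hj
    rw [Finset.mem_range] at hj
    have hinj : Set.InjOn (fun R => R + (M + j)) (Fine : Set ℕ) := by
      intro x _ y _ hxy
      simpa using hxy
    have h1 := Finset.sum_image (s := Fine) (g := fun R => R + (M + j)) (f := W) hinj
    rw [← h1]
    apply Finset.sum_le_sum_of_subset_of_nonneg
    · intro R' hR'
      rw [Finset.mem_image] at hR'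
      obtain ⟨R, hR1, hR2⟩ := hR'
      rw [hFine, Finset.mem_filter, hBase, Finset.mem_range] at hR1
      rw [Finset.mem_range]
      omega
    · intro R _ _; exact hWn R
  have hWs := sum_W_le b hb (r c D) (y ^ D) hyD (N - L) L
  have hNL : N - L + L = N := by omega
  rw [hNL] at hWs
  have hrs : ∑ k ∈ range (N + 1), ((r c D k : ℕ) : ℝ) ≤ (((∑ k ∈ range (N + 1), c k : ℕ) : ℝ)) ^ D := by
    have := sum_r_le c D N
    have h2 : ((∑ k ∈ range (N + 1), r c D k : ℕ) : ℝ) ≤ (((∑ k ∈ range (N + 1), c k) ^ D : ℕ) : ℝ) := by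
      exact_mod_cast this
    rw [Nat.cast_sum, Nat.cast_pow] at h2
    exact h2
  have htot : κ * (f : ℝ) * Fine.card ≤ f * (a * ∑ R ∈ range (N - L), W R + θ * (N + 1)) := by
    have h1 : (Fine.card : ℝ) * (κ * (f : ℝ)) ≤
        ∑ R ∈ Fine, ∑ j ∈ range f, ((a : ℝ) * W (R + (M + j)) + θ) := by
      have := Finset.card_nsmul_le_sum Fine
        (fun R => ∑ j ∈ range f, ((a : ℝ) * W (R + (M + j)) + θ)) (κ * (f : ℝ)) hfine
      rwa [nsmul_eq_mul] at this
    rw [Finset.sum_comm] at h1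
    have h2 : ∑ j ∈ range f, ∑ R ∈ Fine, ((a : ℝ) * W (R + (M + j)) + θ) ≤
        ∑ j ∈ range f, (a * ∑ R ∈ range (N - L), W R + θ * (N + 1)) := by
      apply Finset.sum_le_sum
      intro j hj
      rw [Finset.sum_add_distrib, ← Finset.mul_sum, Finset.sum_const, nsmul_eq_mul]
      have h3 := mul_le_mul_of_nonneg_left (hsumj j hj) (Nat.cast_nonneg (α := ℝ) a)
      have h4 : (Fine.card : ℝ) ≤ N + 1 := by
        have h5 : Fine.card ≤ Base.card := Finset.card_filter_le _ _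
        rw [hBase, Finset.card_range] at h5
        have h6 : Fine.card ≤ N + 1 := by omega
        exact_mod_cast h6
      have h5 : (Fine.card : ℝ) * θ ≤ θ * (N + 1) := by
        rw [mul_comm]; exact mul_le_mul_of_nonneg_left h4 hθ0
      linarith
    rw [Finset.sum_const, Finset.card_range, nsmul_eq_mul] at h2
    linarith
  have htot2 : κ * Fine.card ≤ a * ∑ R ∈ range (N - L), W R + θ * (N + 1) := by
    have : (f : ℝ) * (κ * Fine.card) ≤ f * (a * ∑ R ∈ range (N - L), W R + θ * (N + 1)) := by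
      linarith
    exact le_of_mul_le_mul_left this hfR
  have h10 : κ * ((N : ℝ) + 1 - Q - 2 * Q * G - f * z) ≤ κ * Fine.card :=
    mul_le_mul_of_nonneg_left hFc hκ0
  have h11 : ((b : ℝ) - 1) * (κ * ((N : ℝ) + 1 - Q - 2 * Q * G - f * z)) ≤
      ((b : ℝ) - 1) * (a * ∑ R ∈ range (N - L), W R + θ * (N + 1)) :=
    mul_le_mul_of_nonneg_left (le_trans h10 htot2) hb1.le
  have h12 : ((b : ℝ) - 1) * ∑ R ∈ range (N - L), W R ≤
      (((∑ k ∈ range (N + 1), c k : ℕ) : ℝ)) ^ D + ((b : ℝ)⁻¹) ^ L * W N := by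
    refine le_trans hWs ?_
    linarith
  have h13 := mul_le_mul_of_nonneg_left h12 (Nat.cast_nonneg (α := ℝ) a)
  calc ((b : ℝ) - 1) * κ * ((N : ℝ) + 1 - Q - 2 * Q * G - f * z)
      = ((b : ℝ) - 1) * (κ * ((N : ℝ) + 1 - Q - 2 * Q * G - f * z)) := by ring
    _ ≤ ((b : ℝ) - 1) * (a * ∑ R ∈ range (N - L), W R + θ * (N + 1)) := h11
    _ = a * (((b : ℝ) - 1) * ∑ R ∈ range (N - L), W R) + ((b : ℝ) - 1) * (θ * (N + 1)) := by ring
    _ ≤ _ := by linarith

end Pool.Agent.H949R2
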