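import Pool.Agent.H949R2.Main1

set_option autoImplicit false

open Finset Filter

namespace Pool.Agent.H949R2

noncomputable def X (D N : ℕ) : ℝ := (N : ℝ) ^ ((1 : ℝ) / D)

lemma X_nonneg (D N : ℕ) : 0 ≤ X D N := by unfold X; positivity

lemma X_pow (D N : ℕ) (hD : 1 ≤ D) : (X D N) ^ D = N := by
  unfold X
  rw [← Real.rpow_natCast, ← Real.rpow_mul (Nat.cast_nonneg N)]
  have : (D : ℝ) ≠ 0 := by
    have : (0:ℝ) < D := by exact_mod_cast hD
    exact this.ne'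
  rw [one_div, inv_mul_cancel₀ this, Real.rpow_one]

lemma X_tendsto (D : ℕ) (hD : 1 ≤ D) : Tendsto (X D) atTop atTop := by
  have hD0 : (0:ℝ) < D := by exact_mod_cast hD
  have h1 : Tendsto (fun x : ℝ => x ^ ((1 : ℝ) / D)) atTop atTop :=
    tendsto_rpow_atTop (by positivity)
  exact h1.comp tendsto_natCast_atTop_atTop

noncomputable def LL (D : ℕ) (δ : ℝ) (N : ℕ) : ℕ := ⌊δ * X D N⌋₊

lemma LL_tendsto (D : ℕ) (hD : 1 ≤ D) (δ : ℝ) (hδ : 0 < δ) : Tendsto (LL D δ) atTop atTop := by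
  have h1 : Tendsto (fun N => δ * X D N) atTop atTop := (X_tendsto D hD).const_mul_atTop hδ
  exact tendsto_nat_floor_atTop.comp h1

lemma small (b : ℕ) (hb : 2 ≤ b) (D : ℕ) (hD : 1 ≤ D) (δ : ℝ) (hδ : 0 < δ) (m : ℕ) (C : ℝ) (hC : 0 < C)
    (η : ℝ) (hη : 0 < η) :
    ∀ᶠ N : ℕ in atTop, C * ((N : ℝ) + 1) ^ m * ((b : ℝ)⁻¹) ^ (LL D δ N) ≤ η := by
  have hb0 : (0 : ℝ) < b := by positivity
  have hb1 : (1 : ℝ) < b := by exact_mod_cast hb
  have hr : |((b : ℝ)⁻¹)| < 1 := by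
    rw [abs_of_pos (by positivity)]
    exact inv_lt_one_of_one_lt₀ hb1
  have h1 := tendsto_pow_const_mul_const_pow_of_abs_lt_one (D * m) hr
  have h2 : Tendsto (fun N => LL D δ N + 1) atTop atTop :=
    (tendsto_add_atTop_nat 1).comp (LL_tendsto D hD δ hδ)
  have h3 := h1.comp h2
  set K : ℝ := C * (1 / δ + 1) ^ (D * m) * b with hK
  have hKpos : 0 < K := by positivity
  have h4 := h3.const_mul K
  rw [mul_zero] at h4
  have h5 := h4.eventually (ge_mem_nhds hη)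
  filter_upwards [h5] with N hN
  refine le_trans ?_ hN
  simp only [Function.comp]
  have hL : δ * X D N < (LL D δ N : ℝ) + 1 := Nat.lt_floor_add_one _
  have hX0 := X_nonneg D N
  have hL0 : (0 : ℝ) ≤ LL D δ N := Nat.cast_nonneg _
  have hX1 : X D N ≤ (1 / δ) * ((LL D δ N : ℝ) + 1) := by
    rw [one_div, inv_mul_eq_div, le_div_iff₀ hδ]
    linarith
  have hN1 : (N : ℝ) + 1 ≤ ((1 / δ + 1) * ((LL D δ N : ℝ) + 1)) ^ D := by
    have e1 : (N : ℝ) = (X D N) ^ D := (X_pow D N hD).symm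
    have e2 : (N : ℝ) + 1 ≤ (X D N + 1) ^ D := by
      rw [e1]
      have := pow_add_pow_le hX0 (zero_le_one' ℝ) (by omega : D ≠ 0)
      simpa using this
    refine le_trans e2 (pow_le_pow_left₀ (by positivity) ?_ D)
    nlinarith
  have hN2 : ((N : ℝ) + 1) ^ m ≤ (1 / δ + 1) ^ (D * m) * ((LL D δ N : ℝ) + 1) ^ (D * m) := by
    rw [← mul_pow, pow_mul]
    exact pow_le_pow_left₀ (by positivity) hN1 m
  have e3 : ((b : ℝ)⁻¹) ^ (LL D δ N) = b * ((b : ℝ)⁻¹) ^ (LL D δ N + 1) := by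
    rw [pow_succ]; field_simp
  rw [e3]
  have hp : 0 ≤ (b : ℝ) * ((b : ℝ)⁻¹) ^ (LL D δ N + 1) := by positivity
  calc C * ((N : ℝ) + 1) ^ m * ((b : ℝ) * ((b : ℝ)⁻¹) ^ (LL D δ N + 1))
      ≤ C * ((1 / δ + 1) ^ (D * m) * ((LL D δ N : ℝ) + 1) ^ (D * m)) *
        ((b : ℝ) * ((b : ℝ)⁻¹) ^ (LL D δ N + 1)) := by
        apply mul_le_mul_of_nonneg_right _ hp
        exact mul_le_mul_of_nonneg_left hN2 hC.le
    _ = K * ((((LL D δ N + 1 : ℕ) : ℝ)) ^ (D * m) * ((b : ℝ)⁻¹) ^ (LL D δ N + 1)) := by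
        rw [hK]; push_cast; ring

/-- abstract main theorem -/
theorem main_abs (b : ℕ) (hb : 2 ≤ b) (c : ℕ → ℕ) (h0 : c 0 = 1) (hc : ∀ k, c k ≤ b)
    (A : ℕ → ℤ) (D : ℕ) (hD : 2 ≤ D) (a M : ℕ) (ha : A D = a) (hM : M = a * D.factorial)
    (ha0 : 0 < a) (κ : ℝ) (hκ0 : 0 < κ) (hκ : CycleAvg b M κ) (y : ℝ)
    (hy : HasSum (fun k => (c k : ℝ) * ((b : ℝ)⁻¹) ^ k) y)
    (hP : ∑ j ∈ range (D + 1), (A j : ℝ) * y ^ j = 0)
    (hR : ∀ ε : ℝ, 0 < ε → ∃ n0 : ℕ, ∀ n : ℕ, n0 ≤ n →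
      ∃ k : ℕ, n < k ∧ (k : ℝ) ≤ (1 + ε) * n ∧ c k ≠ 0)
    (ε : ℝ) (hε : 0 < ε) :
    ∀ᶠ N : ℕ in atTop, (1 - ε) * (((b : ℝ) - 1) * κ / a) * (N : ℝ) ≤
      ((∑ k ∈ range (N + 1), c k : ℕ) : ℝ) ^ D := by
  classical
  have hb1 : (0 : ℝ) < (b : ℝ) - 1 := by
    have : (2 : ℝ) ≤ b := by exact_mod_cast hb
    linarith
  have haR : (0 : ℝ) < a := by exact_mod_cast ha0
  set B : ℝ := ((b : ℝ) - 1) * κ / a with hB
  have hBpos : 0 < B := by positivity
  rcases le_or_gt 1 ε with hε1 | hε1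
  · filter_upwards with N
    have h1 : (1 - ε) * B * (N : ℝ) ≤ 0 := by
      apply mul_nonpos_of_nonpos_of_nonneg _ (Nat.cast_nonneg _)
      exact mul_nonpos_of_nonpos_of_nonneg (by linarith) hBpos.le
    exact le_trans h1 (by positivity)
  set f := Nat.totient M with hf
  have hMpos : 0 < M := by rw [hM]; exact Nat.mul_pos ha0 (Nat.factorial_pos D)
  have hfpos : 0 < f := Nat.totient_pos.2 hMpos
  have hfR : (0 : ℝ) < f := by exact_mod_cast hfpos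
  -- constants
  obtain ⟨C, hC0, hC⟩ := T_close b hb c h0 hc A D (by omega) y hy hP
  obtain ⟨C', hC'0, hC'⟩ := Wt_le b hb D
  set β : ℝ := B ^ ((1 : ℝ) / D) with hβ
  have hβ0 : 0 < β := Real.rpow_pos_of_pos hBpos _
  have hβD : β ^ D = B := by
    rw [hβ, ← Real.rpow_natCast, ← Real.rpow_mul hBpos.le]
    have : (D : ℝ) ≠ 0 := by
      have : (0:ℝ) < D := by exact_mod_cast (by omega : 0 < D)
      exact this.ne'
    rw [one_div, inv_mul_cancel₀ this, Real.rpow_one]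
  set β2 : ℝ := β ^ (D - 1) with hβ2
  have hβ20 : 0 < β2 := by positivity
  set δ : ℝ := ε / (8 * β2) with hδ
  have hδ0 : 0 < δ := by positivity
  set ε1 : ℝ := ε / (4 * f) with hε1'
  have hε10 : 0 < ε1 := by positivity
  obtain ⟨n0, hn0⟩ := hR ε1 hε10
  set C1 : ℝ := (1 + ε1) * n0 + 2 with hC1
  have hC10 : 0 < C1 := by positivity
  set q0 : ℕ := M + f with hq0
  set C3 : ℝ := q0 + δ + 2 * q0 * β2 + ε / 4 + f * C1 * β2 + 1 / B with hC3
  have hC30 : 0 < C3 := by positivity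
  have hX := X_tendsto D (by omega)
  have ev1 : ∀ᶠ N : ℕ in atTop, 2 * C3 / ε + 1 < X D N := hX.eventually_gt_atTop _
  have ev2 := small b hb D (by omega) δ hδ0 D C hC0 (1 / 2) (by norm_num)
  have ev3 := small b hb D (by omega) δ hδ0 D C' hC'0 (1 / 2) (by norm_num)
  have ev4 := small b hb D (by omega) δ hδ0 (D + 1) (((b : ℝ) - 1) / a * C) (by positivity) (1 / 2) (by norm_num)
  filter_upwards [ev1, ev2, ev3, ev4] with N hN1 hN2 hN3 hN4
  by_contra hcon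
  push Not at hcon
  set S : ℕ := ∑ k ∈ range (N + 1), c k with hS
  set x : ℝ := X D N with hx
  have hx1 : 1 < x := by
    have : 0 < 2 * C3 / ε := by positivity
    linarith
  have hx0 : 0 ≤ x := by linarith
  have hxD : x ^ D = N := X_pow D N (by omega)
  set L : ℕ := LL D δ N with hL
  have hLle : (L : ℝ) ≤ δ * x := Nat.floor_le (by positivity)
  -- S ≤ β x
  have hNnn : (0 : ℝ) ≤ N := Nat.cast_nonneg N
  have hSx : (S : ℝ) ≤ β * x := by
    have h1 : (S : ℝ) ^ D ≤ (β * x) ^ D := by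
      rw [mul_pow, hβD, hxD]
      have : (1 - ε) * B * (N : ℝ) ≤ B * N := by
        have : 0 ≤ ε * (B * N) := by positivity
        nlinarith
      linarith
    exact le_of_pow_le_pow_left₀ (by omega) (by positivity) h1
  set G : ℕ := S ^ (D - 1) with hG
  have hGx : (G : ℝ) ≤ β2 * x ^ (D - 1) := by
    rw [hG, hβ2, ← mul_pow]
    push_cast
    exact pow_le_pow_left₀ (Nat.cast_nonneg _) hSx _
  set Q : ℕ := M + f + L with hQ
  have hQx : (Q : ℝ) ≤ q0 + δ * x := by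
    rw [hQ, hq0]; push_cast; linarith
  have hxpow : 1 ≤ x ^ (D - 1) := one_le_pow₀ hx1.le
  have hxle : x ≤ x ^ (D - 1) := by
    calc x = x ^ 1 := (pow_one x).symm
      _ ≤ x ^ (D - 1) := pow_le_pow_right₀ hx1.le (by omega)
  have hxx : x * x ^ (D - 1) = N := by
    rw [← hxD, ← pow_succ']; congr 1; omega
  set z : ℝ := ε1 * (N + 1) + C1 * G with hz
  have hzx : f * z ≤ ε / 4 * (N + 1) + f * C1 * β2 * x ^ (D - 1) := by
    rw [hz]
    have h1 : (f : ℝ) * (ε1 * (N + 1)) = ε / 4 * (N + 1) := by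
      rw [hε1']; field_simp
    have h2 : (f : ℝ) * (C1 * G) ≤ f * C1 * β2 * x ^ (D - 1) := by
      have := mul_le_mul_of_nonneg_left hGx (by positivity : 0 ≤ (f : ℝ) * C1)
      linarith
    linarith
  have hGnn : (0 : ℝ) ≤ G := Nat.cast_nonneg _
  have hQG : (Q : ℝ) + 2 * Q * G ≤ (q0 + δ + 2 * q0 * β2) * x ^ (D - 1) + ε / 4 * N := by
    have h1 : (Q : ℝ) ≤ (q0 + δ) * x ^ (D - 1) := by
      have h2 : (q0 : ℝ) ≤ q0 * x ^ (D - 1) := le_mul_of_one_le_right (Nat.cast_nonneg _) hxpow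
      have h3 : δ * x ≤ δ * x ^ (D - 1) := mul_le_mul_of_nonneg_left hxle hδ0.le
      linarith
    have h2 : 2 * (Q : ℝ) * G ≤ 2 * (q0 + δ * x) * (β2 * x ^ (D - 1)) := by
      apply mul_le_mul _ hGx hGnn (by positivity)
      linarith
    have h3 : 2 * (q0 + δ * x) * (β2 * x ^ (D - 1)) = 2 * q0 * β2 * x ^ (D - 1) + ε / 4 * N := by
      have : 2 * (q0 + δ * x) * (β2 * x ^ (D - 1)) = 2 * q0 * β2 * x ^ (D - 1) +
          2 * δ * β2 * (x * x ^ (D - 1)) := by ring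
      rw [this, hxx, hδ]
      field_simp
      ring
    linarith
  -- total error
  have htotal : (Q : ℝ) + 2 * Q * G + f * z + 1 / B < ε * N := by
    have h1 : (Q : ℝ) + 2 * Q * G + f * z + 1 / B ≤ C3 * x ^ (D - 1) + ε / 2 * N := by
      have h2 : ε / 4 * (N + 1) = ε / 4 * N + ε / 4 := by ring
      have h3 : ε / 4 ≤ ε / 4 * x ^ (D - 1) := le_mul_of_one_le_right (by positivity) hxpow
      have h4 : 1 / B ≤ 1 / B * x ^ (D - 1) := le_mul_of_one_le_right (by positivity) hxpow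
      have h5 : C3 * x ^ (D - 1) = (q0 + δ + 2 * q0 * β2) * x ^ (D - 1) + ε / 4 * x ^ (D - 1) +
        f * C1 * β2 * x ^ (D - 1) + 1 / B * x ^ (D - 1) := by rw [hC3]; ring
      rw [h5]
      linarith
    have h2 : C3 * x ^ (D - 1) < ε / 2 * N := by
      rw [← hxx, ← mul_assoc]
      apply mul_lt_mul_of_pos_right _ (by linarith)
      have : 2 * C3 / ε < x := by linarith
      rw [div_lt_iff₀ hε] at this
      linarith
    linarith
  have hznn : 0 ≤ z := by positivity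
  have hQN : Q ≤ N := by
    have h1 : (Q : ℝ) ≤ N := by
      have h2 : 0 ≤ 2 * (Q : ℝ) * G := by positivity
      have h3 : 0 ≤ (f : ℝ) * z := by positivity
      have h4 : 0 < 1 / B := by positivity
      have h5 : ε * N ≤ N := by nlinarith
      linarith
    exact_mod_cast h1
  -- θ
  set θ : ℝ := C * ((N : ℝ) + 1) ^ D * ((b : ℝ)⁻¹) ^ L with hθ
  have hθ0 : 0 ≤ θ := by positivity
  have hAD : ((A D : ℤ) : ℝ) = a := by rw [ha]; simp
  have hyD := hasSum_r c ((b : ℝ)⁻¹) y (by positivity) hy D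
  have hposT : ∀ R, R + L ≤ N → (∀ k, R < k → k ≤ R + L → r c (D - 1) k = 0) → 0 ≤ T b c A D R := by
    intro R h1 h2
    have h3 := hC N R L h1 h2
    have h4 := (abs_le.1 h3).1
    have h5 := Wt_nonneg b (r c D) (y ^ D) hyD R
    rw [hAD] at h4
    have h6 : 0 ≤ (a : ℝ) * Wt b (r c D) (y ^ D) R := mul_nonneg haR.le h5
    have h7 : (-1 : ℝ) < T b c A D R := by
      have : C * ((N : ℝ) + 1) ^ D * ((b : ℝ)⁻¹) ^ L ≤ 1 / 2 := hN2
      linarith
    have h8 : (-1 : ℤ) < T b c A D R := by exact_mod_cast h7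
    omega
  have hzero := card_zero_le b c h0 A D (by omega) (by rw [ha]; exact_mod_cast ha0) ε1 hε10 n0 hn0 N L hposT
  have hzero' : (((range (N + 1)).filter (fun R => R + L ≤ N ∧
      (∀ k, R < k → k ≤ R + L → r c (D - 1) k = 0) ∧ T b c A D R ≤ 0)).card : ℝ) ≤ z := by
    refine le_trans (by convert hzero using 3) ?_
    rw [hz]
    have h1 := card_r_ne_zero_le c (D - 1) N
    have h2 : (((range (N + 1)).filter (fun k => r c (D - 1) k ≠ 0)).card : ℝ) ≤ G := by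
      exact_mod_cast h1
    have := mul_le_mul_of_nonneg_left h2 hC10.le
    linarith
  have hcount := counting b hb c h0 A D hD a M ha hM ha0 κ hκ0.le hκ y hy N L Q hQ hQN θ hθ0
    (fun R h1 h2 => hC N R L h1 h2) G le_rfl z (by convert hzero' using 3)
  have hWN := hC' (r c D) (y ^ D) hyD (r_le c b hc D) N
  have hsm1 : ((b : ℝ)⁻¹) ^ L * Wt b (r c D) (y ^ D) N ≤ 1 / 2 := by
    have h1 : ((b : ℝ)⁻¹) ^ L * Wt b (r c D) (y ^ D) N ≤ ((b : ℝ)⁻¹) ^ L * (C' * ((N : ℝ) + 1) ^ D) :=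
      mul_le_mul_of_nonneg_left hWN (by positivity)
    have h2 : C' * ((N : ℝ) + 1) ^ D * ((b : ℝ)⁻¹) ^ L ≤ 1 / 2 := hN3
    linarith
  have hsm2 : ((b : ℝ) - 1) * (θ * (N + 1)) ≤ a * (1 / 2) := by
    have h2 : ((b : ℝ) - 1) / a * C * ((N : ℝ) + 1) ^ (D + 1) * ((b : ℝ)⁻¹) ^ L ≤ 1 / 2 := hN4
    have h3 : ((b : ℝ) - 1) * (θ * (N + 1)) = a * (((b : ℝ) - 1) / a * C * ((N : ℝ) + 1) ^ (D + 1) * ((b : ℝ)⁻¹) ^ L) := by
      rw [hθ, pow_succ]; field_simp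
    rw [h3]
    exact mul_le_mul_of_nonneg_left h2 haR.le
  have hfin : a * (B * ((N : ℝ) + 1 - Q - 2 * Q * G - f * z)) ≤ a * ((S : ℝ) ^ D + 1) := by
    have h1 : a * (B * ((N : ℝ) + 1 - Q - 2 * Q * G - f * z)) =
        ((b : ℝ) - 1) * κ * ((N : ℝ) + 1 - Q - 2 * Q * G - f * z) := by
      rw [hB]; field_simp
    rw [h1]
    refine le_trans hcount ?_
    have h2 : a * ((((S : ℕ) : ℝ)) ^ D + ((b : ℝ)⁻¹) ^ L * Wt b (r c D) (y ^ D) N) ≤
        a * ((S : ℝ) ^ D + 1 / 2) := by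
      apply mul_le_mul_of_nonneg_left _ haR.le
      linarith
    linarith
  have hfin2 := le_of_mul_le_mul_left hfin haR
  have h20 : B * (1 / B) = 1 := by field_simp
  have h21 : B * ((Q : ℝ) + 2 * Q * G + f * z + 1 / B) < B * (ε * N) :=
    mul_lt_mul_of_pos_left htotal hBpos
  nlinarith

end Pool.Agent.H949R2
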