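import Pool.Agent.H949R2.Divis

set_option autoImplicit false

open Finset

namespace Pool.Agent.H949R2

/-- integer carry tails -/
def T (b : ℕ) (c : ℕ → ℕ) (A : ℕ → ℤ) (D : ℕ) : ℕ → ℤ
  | 0 => - ∑ j ∈ range (D + 1), A j * (r c j 0 : ℤ)
  | (R+1) => b * T b c A D R - ∑ j ∈ range (D + 1), A j * (r c j (R + 1) : ℤ)

lemma T_zero (b : ℕ) (c : ℕ → ℕ) (A : ℕ → ℤ) (D : ℕ) :
    T b c A D 0 = - ∑ j ∈ range (D + 1), A j * (r c j 0 : ℤ) := by rw [T]

lemma T_succ (b : ℕ) (c : ℕ → ℕ) (A : ℕ → ℤ) (D R : ℕ) :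
    T b c A D (R + 1) = b * T b c A D R - ∑ j ∈ range (D + 1), A j * (r c j (R + 1) : ℤ) := by
  rw [T]

lemma T_eq (b : ℕ) (hb : 2 ≤ b) (c : ℕ → ℕ) (A : ℕ → ℤ) (D : ℕ) (y : ℝ)
    (hP : ∑ j ∈ range (D + 1), (A j : ℝ) * y ^ j = 0) (R : ℕ) :
    (T b c A D R : ℝ) = ∑ j ∈ range (D + 1), (A j : ℝ) * Wt b (r c j) (y ^ j) R := by
  induction R with
  | zero =>
    rw [T_zero]
    simp_rw [Wt_zero, mul_sub]
    rw [Finset.sum_sub_distrib, hP]
    push_cast
    ring
  | succ R ih =>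
    rw [T_succ]
    simp_rw [Wt_succ b hb]
    push_cast
    rw [ih, Finset.mul_sum, ← Finset.sum_sub_distrib]
    apply Finset.sum_congr rfl
    intro j _
    ring

lemma T_succ_good (b : ℕ) (c : ℕ → ℕ) (h0 : c 0 = 1) (A : ℕ → ℤ) (D : ℕ) (hD : 1 ≤ D) (R : ℕ)
    (h : r c (D - 1) (R + 1) = 0) :
    T b c A D (R + 1) = b * T b c A D R - A D * (r c D (R + 1) : ℤ) := by
  rw [T_succ, Finset.sum_range_succ]
  have : ∑ j ∈ range D, A j * (r c j (R + 1) : ℤ) = 0 := by
    apply Finset.sum_eq_zero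
    intro j hj
    rw [Finset.mem_range] at hj
    have : r c j (R + 1) = 0 := by
      by_contra hne
      exact r_nested_le c h0 j (D - 1) (R + 1) (by omega) hne h
    rw [this]; simp
  rw [this, zero_add]

/-- closeness of `T` and `A_D W_D` at positions followed by a long free stretch -/
lemma T_close (b : ℕ) (hb : 2 ≤ b) (c : ℕ → ℕ) (h0 : c 0 = 1) (hc : ∀ k, c k ≤ b)
    (A : ℕ → ℤ) (D : ℕ) (hD : 1 ≤ D) (y : ℝ)
    (hy : HasSum (fun k => (c k : ℝ) * ((b : ℝ)⁻¹) ^ k) y)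
    (hP : ∑ j ∈ range (D + 1), (A j : ℝ) * y ^ j = 0) :
    ∃ C : ℝ, 0 < C ∧ ∀ N R L : ℕ, R + L ≤ N →
      (∀ k, R < k → k ≤ R + L → r c (D - 1) k = 0) →
      |(T b c A D R : ℝ) - A D * Wt b (r c D) (y ^ D) R| ≤
        C * ((N : ℝ) + 1) ^ D * ((b : ℝ)⁻¹) ^ L := by
  have hb1 : (1 : ℝ) ≤ b := by exact_mod_cast (by omega : 1 ≤ b)
  choose Cf hC0 hC using fun j => Wt_le b hb j
  refine ⟨∑ j ∈ range D, |(A j : ℝ)| * Cf j + 1, by
    have : 0 ≤ ∑ j ∈ range D, |(A j : ℝ)| * Cf j :=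
      Finset.sum_nonneg (fun j _ => mul_nonneg (abs_nonneg _) (hC0 j).le)
    linarith, ?_⟩
  intro N R L hRL hg
  rw [T_eq b hb c A D y hP R, Finset.sum_range_succ]
  have e1 : ∑ x ∈ range D, (A x : ℝ) * Wt b (r c x) (y ^ x) R + (A D : ℝ) * Wt b (r c D) (y ^ D) R -
      (A D : ℝ) * Wt b (r c D) (y ^ D) R = ∑ x ∈ range D, (A x : ℝ) * Wt b (r c x) (y ^ x) R := by ring
  rw [e1]
  have hN1 : (1 : ℝ) ≤ (N : ℝ) + 1 := by linarith [(Nat.cast_nonneg N : (0 : ℝ) ≤ N)]
  have key : ∀ j ∈ range D, |(A j : ℝ) * Wt b (r c j) (y ^ j) R| ≤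
      |(A j : ℝ)| * Cf j * (((N : ℝ) + 1) ^ D * ((b : ℝ)⁻¹) ^ L) := by
    intro j hj
    rw [Finset.mem_range] at hj
    have hs := hasSum_r c ((b : ℝ)⁻¹) y (by positivity) hy j
    have hgap : ∀ k, R < k → k ≤ R + L → r c j k = 0 := by
      intro k h1 h2
      by_contra hne
      exact r_nested_le c h0 j (D - 1) k (by omega) hne (hg k h1 h2)
    rw [abs_mul, Wt_gap b hb (r c j) (y ^ j) R L hgap]
    have hW0 := Wt_nonneg b (r c j) (y ^ j) hs (R + L)
    have hW1 := hC j (r c j) (y ^ j) hs (r_le c b hc j) (R + L)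
    have hpow : (((R + L : ℕ) : ℝ) + 1) ^ j ≤ ((N : ℝ) + 1) ^ D := by
      have h1 : (((R + L : ℕ) : ℝ) + 1) ≤ (N : ℝ) + 1 := by
        have : ((R + L : ℕ) : ℝ) ≤ N := by exact_mod_cast hRL
        linarith
      refine le_trans (pow_le_pow_left₀ (by positivity) h1 j) ?_
      exact pow_le_pow_right₀ hN1 (by omega)
    rw [abs_of_nonneg (mul_nonneg (by positivity) hW0)]
    have h2 : Wt b (r c j) (y ^ j) (R + L) ≤ Cf j * ((N : ℝ) + 1) ^ D :=
      le_trans hW1 (mul_le_mul_of_nonneg_left hpow (hC0 j).le)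
    have h3 : ((b : ℝ)⁻¹) ^ L * Wt b (r c j) (y ^ j) (R + L) ≤
        ((b : ℝ)⁻¹) ^ L * (Cf j * ((N : ℝ) + 1) ^ D) := mul_le_mul_of_nonneg_left h2 (by positivity)
    calc |(A j : ℝ)| * (((b : ℝ)⁻¹) ^ L * Wt b (r c j) (y ^ j) (R + L)) ≤
        |(A j : ℝ)| * (((b : ℝ)⁻¹) ^ L * (Cf j * ((N : ℝ) + 1) ^ D)) :=
          mul_le_mul_of_nonneg_left h3 (abs_nonneg _)
      _ = _ := by ring
  refine le_trans (Finset.abs_sum_le_sum_abs _ _) ?_
  refine le_trans (Finset.sum_le_sum key) ?_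
  rw [← Finset.sum_mul]
  have : 0 ≤ ((N : ℝ) + 1) ^ D * ((b : ℝ)⁻¹) ^ L := by positivity
  nlinarith

/-! ### zeros of `T` -/

open Classical in
/-- Few good positions with `T ≤ 0`. -/
lemma card_zero_le (b : ℕ) (c : ℕ → ℕ) (h0 : c 0 = 1)
    (A : ℕ → ℤ) (D : ℕ) (hD : 1 ≤ D) (hA : 0 < A D) (ε : ℝ) (hε : 0 < ε) (n0 : ℕ)
    (hR : ∀ n : ℕ, n0 ≤ n → ∃ k : ℕ, n < k ∧ (k : ℝ) ≤ (1 + ε) * n ∧ c k ≠ 0)
    (N L : ℕ)
    (hpos : ∀ R, R + L ≤ N → (∀ k, R < k → k ≤ R + L → r c (D - 1) k = 0) → 0 ≤ T b c A D R) :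
    (((range (N + 1)).filter (fun R => R + L ≤ N ∧ (∀ k, R < k → k ≤ R + L → r c (D - 1) k = 0) ∧
      T b c A D R ≤ 0)).card : ℝ) ≤
      ε * (N + 1) + ((1 + ε) * n0 + 2) * ((range (N + 1)).filter (fun k => r c (D - 1) k ≠ 0)).card := by
  set E : ℕ → Prop := fun k => r c (D - 1) k ≠ 0 with hE
  set Z := (range (N + 1)).filter (fun R => R + L ≤ N ∧ (∀ k, R < k → k ≤ R + L → r c (D - 1) k = 0) ∧
      T b c A D R ≤ 0) with hZ
  set Es := (range (N + 1)).filter (fun k => r c (D - 1) k ≠ 0) with hEs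
  have hE0 : E 0 := by
    show r c (D - 1) 0 ≠ 0
    rw [r_at_zero c h0]; exact one_ne_zero
  let e : ℕ → ℕ := fun R => Nat.findGreatest E R
  have he1 : ∀ R, E (e R) := fun R => Nat.findGreatest_spec (P := E) (Nat.zero_le R) hE0
  have he2 : ∀ R, e R ≤ R := fun R => Nat.findGreatest_le R
  have he3 : ∀ R k, e R < k → k ≤ R → ¬ E k := fun R k h1 h2 => Nat.findGreatest_is_greatest h1 h2
  have hmapZ : ∀ R ∈ Z, e R ∈ Es := by
    intro R hR'
    rw [hZ, Finset.mem_filter, Finset.mem_range] at hR'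
    rw [hEs, Finset.mem_filter, Finset.mem_range]
    exact ⟨by have := he2 R; omega, he1 R⟩
  have hmapG : ∀ R ∈ range (N + 1), e R ∈ Es := by
    intro R hR'
    rw [Finset.mem_range] at hR'
    rw [hEs, Finset.mem_filter, Finset.mem_range]
    exact ⟨by have := he2 R; omega, he1 R⟩
  have hcZ := Finset.card_eq_sum_card_fiberwise hmapZ
  have hcG := Finset.card_eq_sum_card_fiberwise hmapG
  rw [Finset.card_range] at hcG
  have key : ∀ x ∈ Es, ((Z.filter (fun R => e R = x)).card : ℝ) ≤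
      ε * (((range (N + 1)).filter (fun R => e R = x)).card : ℝ) + ((1 + ε) * n0 + 2) := by
    intro x hx
    have hC0 : 0 ≤ (1 + ε) * n0 + 2 := by positivity
    by_cases hne : (Z.filter (fun R => e R = x)).Nonempty
    swap
    · rw [Finset.not_nonempty_iff_eq_empty] at hne
      rw [hne]
      rw [Finset.card_empty, Nat.cast_zero]
      exact add_nonneg (mul_nonneg hε.le (Nat.cast_nonneg _)) hC0
    set R0 := (Z.filter (fun R => e R = x)).min' hne with hR0
    set R1 := (Z.filter (fun R => e R = x)).max' hne with hR1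
    have hR0m := Finset.min'_mem _ hne
    have hR1m := Finset.max'_mem _ hne
    rw [← hR0] at hR0m
    rw [← hR1] at hR1m
    have hR01 : R0 ≤ R1 := Finset.min'_le _ _ hR1m
    rw [Finset.mem_filter, hZ, Finset.mem_filter, Finset.mem_range] at hR0m hR1m
    obtain ⟨⟨hR0N, hR0L, hR0g, hR0T⟩, hR0e⟩ := hR0m
    obtain ⟨⟨hR1N, hR1L, hR1g, hR1T⟩, hR1e⟩ := hR1m
    have hxE : E x := by rw [← hR0e]; exact he1 R0
    have hxR0 : x ≤ R0 := by rw [← hR0e]; exact he2 R0
    have hfree : ∀ k, x < k → k ≤ R1 + L → r c (D - 1) k = 0 := by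
      intro k h1 h2
      by_cases hk : k ≤ R1
      · have := he3 R1 k (by rw [hR1e]; exact h1) hk
        exact not_not.1 this
      · exact hR1g k (by omega) h2
    -- cardinalities
    have hc1 : (Z.filter (fun R => e R = x)).card ≤ R1 + 1 - R0 := by
      have : (Z.filter (fun R => e R = x)) ⊆ Finset.Icc R0 R1 := by
        intro R hR'
        rw [Finset.mem_Icc]
        exact ⟨Finset.min'_le _ _ hR', Finset.le_max' _ _ hR'⟩
      have := Finset.card_le_card this
      rwa [Nat.card_Icc] at this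
    have hc2 : R1 + 1 - x ≤ ((range (N + 1)).filter (fun R => e R = x)).card := by
      have : Finset.Icc x R1 ⊆ ((range (N + 1)).filter (fun R => e R = x)) := by
        intro R hR'
        rw [Finset.mem_Icc] at hR'
        rw [Finset.mem_filter, Finset.mem_range]
        refine ⟨by omega, ?_⟩
        apply le_antisymm
        · by_contra hcon
          push Not at hcon
          have h1 := he1 R
          have h2 := he2 R
          exact h1 (hfree (e R) hcon (by omega))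
        · exact Nat.le_findGreatest hR'.1 hxE
      have := Finset.card_le_card this
      rwa [Nat.card_Icc] at this
    -- persistence
    have hpers : ∀ i, R0 + i ≤ R1 → T b c A D (R0 + i) = 0 ∧
        (∀ k, R0 < k → k ≤ R0 + i → r c D k = 0) := by
      intro i
      induction i with
      | zero =>
        intro _
        refine ⟨le_antisymm hR0T (hpos R0 hR0L hR0g), ?_⟩
        intro k h1 h2; omega
      | succ i ih =>
        intro hi
        obtain ⟨ih1, ih2⟩ := ih (by omega)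
        have hz : r c (D - 1) (R0 + i + 1) = 0 := hfree _ (by omega) (by omega)
        have hrec := T_succ_good b c h0 A D hD (R0 + i) hz
        rw [ih1, mul_zero, zero_sub] at hrec
        have hge : 0 ≤ T b c A D (R0 + i + 1) := by
          apply hpos
          · omega
          · intro k h1 h2
            exact hfree k (by omega) (by omega)
        have hr0 : (0 : ℤ) ≤ (r c D (R0 + i + 1) : ℤ) := Int.natCast_nonneg _
        have hr1 : (r c D (R0 + i + 1) : ℤ) = 0 := by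
          rw [hrec] at hge
          nlinarith
        have hr2 : r c D (R0 + i + 1) = 0 := by exact_mod_cast hr1
        refine ⟨?_, ?_⟩
        · show T b c A D (R0 + i + 1) = 0
          rw [hrec, hr1]; simp
        · intro k h1 h2
          by_cases hk : k ≤ R0 + i
          · exact ih2 k h1 hk
          · have : k = R0 + i + 1 := by omega
            rw [this]; exact hr2
    have hrz : ∀ k, R0 < k → k ≤ R1 → r c D k = 0 := by
      intro k h1 h2
      exact (hpers (R1 - R0) (by omega)).2 k h1 (by omega)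
    -- Ridout
    obtain ⟨k, hk1, hk2, hk3⟩ := hR (max (R0 - x) n0) (le_max_right _ _)
    have hkR1 : R1 < x + k := by
      by_contra hcon
      push Not at hcon
      have h1 : R0 - x < k := lt_of_le_of_lt (le_max_left _ _) hk1
      have h2 := hrz (k + x) (by omega) (by omega)
      have h3 := r_add_ge c (D - 1) x k
      have h4 : D - 1 + 1 = D := by omega
      rw [h4, h2] at h3
      have h5 : 0 < c k * r c (D - 1) x := Nat.mul_pos (Nat.pos_of_ne_zero hk3) (Nat.pos_of_ne_zero hxE)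
      omega
    have hc1' : ((Z.filter (fun R => e R = x)).card : ℝ) ≤ (R1 : ℝ) + 1 - R0 := by
      have : (((R1 + 1 - R0 : ℕ)) : ℝ) = (R1 : ℝ) + 1 - R0 := by
        rw [Nat.cast_sub (by omega)]; push_cast; ring
      rw [← this]; exact_mod_cast hc1
    have hc2' : (R1 : ℝ) + 1 - x ≤ (((range (N + 1)).filter (fun R => e R = x)).card : ℝ) := by
      have : (((R1 + 1 - x : ℕ)) : ℝ) = (R1 : ℝ) + 1 - x := by
        rw [Nat.cast_sub (by omega)]; push_cast; ring
      rw [← this]; exact_mod_cast hc2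
    have hkR1' : (R1 : ℝ) < x + k := by exact_mod_cast hkR1
    have hxR0' : (x : ℝ) ≤ R0 := by exact_mod_cast hxR0
    have hR01' : (R0 : ℝ) ≤ R1 := by exact_mod_cast hR01
    rcases le_total n0 (R0 - x) with hcase | hcase
    · rw [max_eq_left hcase] at hk2
      have h1 : (((R0 - x : ℕ)) : ℝ) = (R0 : ℝ) - x := by
        rw [Nat.cast_sub hxR0]
      rw [h1] at hk2
      have h2 : (R1 : ℝ) - R0 ≤ ε * ((R0 : ℝ) - x) := by nlinarith
      have h3 : ε * ((R0 : ℝ) - x) ≤ ε * ((R1 : ℝ) + 1 - x) := by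
        apply mul_le_mul_of_nonneg_left _ hε.le
        linarith
      have h4 : ε * ((R1 : ℝ) + 1 - x) ≤ ε * (((range (N + 1)).filter (fun R => e R = x)).card : ℝ) :=
        mul_le_mul_of_nonneg_left hc2' hε.le
      have h5 : 0 ≤ (1 + ε) * (n0 : ℝ) := by positivity
      linarith
    · rw [max_eq_right hcase] at hk2
      have h2 : (R1 : ℝ) - R0 ≤ (1 + ε) * n0 := by linarith
      have h4 : 0 ≤ ε * (((range (N + 1)).filter (fun R => e R = x)).card : ℝ) :=
        mul_nonneg hε.le (Nat.cast_nonneg _)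
      linarith
  have hcZ' : (Z.card : ℝ) = ∑ x ∈ Es, ((Z.filter (fun R => e R = x)).card : ℝ) := by
    rw [hcZ, Nat.cast_sum]
  have hcG' : ((N : ℝ) + 1) = ∑ x ∈ Es, (((range (N + 1)).filter (fun R => e R = x)).card : ℝ) := by
    have h1 : ((N + 1 : ℕ) : ℝ) = (N : ℝ) + 1 := by push_cast; rfl
    have h2 : ((N + 1 : ℕ) : ℝ) = ((∑ x ∈ Es, ((range (N + 1)).filter (fun R => e R = x)).card : ℕ) : ℝ) := by
      exact congrArg (Nat.cast (R := ℝ)) hcG
    rw [← h1, h2, Nat.cast_sum]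
  rw [hcZ', hcG']
  refine le_trans (Finset.sum_le_sum key) ?_
  rw [Finset.sum_add_distrib, ← Finset.mul_sum, Finset.sum_const, nsmul_eq_mul]
  linarith

end Pool.Agent.H949R2
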